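import Pool.Agent.MP_3ce0a0_al.Q2T13.Spec

/-! The ports in the form used by the last block. -/

set_option autoImplicit false

open Filter

namespace Pool.Agent.MP_3ce0a0_al.Q2T13

open H79 Q2T1 Q2T15

namespace RAd

variable {α : Type}

theorem ex_lam {I : Finset α} {H : Subgroup (FreeGroup α)} (hH : Dp (sf I) H) :
    ∃ Λ : Subgroup (FreeGroup α), Λ.FiniteIndex ∧ ∀ w ∈ Λ, w ∈ std (I : Set α) → w ∈ H := by
  refine ⟨H.comap (ret I), ⟨?_⟩, fun w hw hI => ?_⟩
  · rw [Subgroup.index_comap]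
    refine fun h0 => hH.2 (Subgroup.relIndex_eq_zero_of_le_right ?_ h0)
    rintro _ ⟨w, rfl⟩
    exact ret_mem _ w
  · rw [← ret_eq_self hI]
    exact hw

theorem dp_lam (I : Finset α) {Λ : Subgroup (FreeGroup α)} (h : Λ.FiniteIndex) :
    Dp (sf I) (sf I ⊓ Λ) := dp_inf Subgroup.FiniteIndex.index_ne_zero

theorem deep_eq (I : Finset α) : Q2T14.deep I = deep (sf I) := by
  ext S
  constructor
  · rintro ⟨Λ, h1, h2⟩
    exact ⟨_, dp_lam I h1, fun k hk => h2 k hk.2 hk.1⟩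
  · rintro ⟨H, h1, h2⟩
    obtain ⟨Λ, h3, h4⟩ := ex_lam h1
    exact ⟨Λ, h3, fun w hw hI => h2 w (h4 w hw hI)⟩

theorem deepK_eq [Fintype α] (I L : Finset α) : Q2T14.deepK I L = deep (KK (sf I) L) := by
  classical
  ext S
  constructor
  · rintro ⟨Λ, h1, h2⟩
    exact ⟨_, dp_KK (dp_lam I h1) L, fun k hk => h2 k fun h =>
      ⟨(hk h).1.2, (hk h).1.1, (hk h).2⟩⟩
  · rintro ⟨G, h1, h2⟩
    have h3 : ∀ᶠ b in deep (sf I), ∀ h : α × Bool, h.1 ∈ L →
        (Pi.mulSingle h b : α × Bool → FreeGroup α) ∈ G := by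
      refine eventually_all.2 fun h => ?_
      by_cases hh : h.1 ∈ L
      · exact ((tendsto_deep (MonoidHom.mulSingle (fun _ : α × Bool => FreeGroup α) h)
          fun b hb => mulSingle_mem_KK hh hb).eventually h1.ev).mono fun b hb _ => hb
      · exact Eventually.of_forall fun b h' => absurd h' hh
    obtain ⟨H, h4, h5⟩ := h3
    obtain ⟨Λ, h6, h7⟩ := ex_lam h4
    refine ⟨Λ, h6, fun β hβ => h2 β (Subgroup.pi_mem_of_mulSingle_mem β fun h => ?_)⟩
    by_cases hh : h.1 ∈ L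
    · exact h5 _ (h7 _ (hβ h).1 (hβ h).2.1) h hh
    · rw [(hβ h).2.2 hh, Pi.mulSingle_one]
      exact G.one_mem

variable {F : Type} [Group F] {ρ : Out (FreeGroup α) →* Out F}

theorem isSig_iff {I : Finset α} {f : FreeGroup α → F} {β : Q2T14.Par α} {a : MulAut F} :
    Q2T14.IsSig ρ I f β a ↔ mkOut F a = TK ρ I β ∧ Fixes (sf I) f a := by
  rw [Q2T14.IsSig, deep_eq]
  rfl

theorem sz_ok {I : Finset α} (h : Q2T14.Ok I) : Sz I := ⟨by have := h.1; omega, by
  have := h.2; omega⟩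

theorem sz_ch {I L : Finset α} (h : Q2T14.Ch I L) : Sz I := ⟨by have := h.1; omega, by
  have := h.2.1; omega⟩

variable [IsFreeGroup F]

theorem free {I : Finset α} {f : FreeGroup α → F} (hf : f ∈ Phi ρ I) (u : F)
    (hu : ∀ᶠ w in Q2T14.deep I, u * f w * u⁻¹ = f w) : u = 1 := by
  rw [deep_eq] at hu
  exact (phi_nag hf).eq_one (hu.mono fun w hw => mul_inv_eq_iff_eq_mul.1 hw)

theorem sig_ev [Fintype α] (hP : Ports ρ) {I L : Finset α} (hC : Q2T14.Ch I L)
    {f : FreeGroup α → F} (hf : f ∈ Phi ρ I) :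
    Q2T14.sig ρ I f =ᶠ[Q2T14.deepK I L] nd ρ I f none := by
  rw [deepK_eq]
  exact (hP.cen I L (sz_ch hC) hC.2.2.2 (by have := hC.2.2.1; omega) f hf).mono fun k hk =>
    (isSig_iff.2 (sig_spec hk)).eq_sig (free hf)

theorem tv_ev [Fintype α] (hP : Ports ρ) {I L : Finset α} (hC : Q2T14.Ch I L)
    {f : FreeGroup α → F} (hf : f ∈ Phi ρ I) (h : α × Bool) :
    Q2T14.tv ρ I f h =ᶠ[Q2T14.deepK I L] nd ρ I f (some h) :=
  (sig_ev hP hC hf).mono fun k hk => congrArg (MulAut.conj (f (k h)) * ·) hk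

end RAd

open RAd in
theorem rowAd : StmtAd := by
  intro α F _ _ _ ρ hP
  refine
    { congr := fun I f g _ hf e => hP.congr I f hf g (deep_eq I ▸ e)
      hom := fun I f hI hf => ?_
      free := fun I f u _ hf hu => free hf u hu
      ne := fun I hI => hP.ne I (sz_ok hI)
      fin := fun I hI => ?_
      res := fun J I f hJ hI hJI hf => hP.res I J (sz_ok hI) (sz_ok hJ) hJI hf
      ext := fun J I f hJ hI hJI hf => ?_
      inj := fun J I f g hJ hI hJI hf hg e => ?_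
      aut := fun I f x γ a hI hf hx hγ h1 h2 => hP.p4 I (sz_ok hI) x hx γ hγ h1 a h2 f hf
      sig_ex := fun I L f hC hf => ?_
      conn := fun I L S hC hS hst f g hf hg h0 => ?_
      acyc := fun I f h hC hf => ?_ }
  · obtain ⟨H, h1, h2, -⟩ := hP.hom I (sz_ok hI) f hf
    obtain ⟨Λ, h3, h4⟩ := ex_lam h1
    exact ⟨Λ, h3, fun u hu v hv hu' hv' => h2 u (h4 u hu hu') v (h4 v hv hv')⟩
  · rw [deep_eq]
    exact hP.fin I (sz_ok hI)
  · obtain ⟨f', h1, h2⟩ := hP.onto I J (sz_ok hI) (sz_ok hJ) hJI f hf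
    exact ⟨f', h1, deep_eq J ▸ h2.symm⟩
  · rw [deep_eq] at e ⊢
    exact hP.inj I J hJ.1 hI.2 hJI f hf g hg e
  · rw [deepK_eq]
    exact (hP.cen I L (sz_ch hC) hC.2.2.2 (by have := hC.2.2.1; omega) f hf).mono
      fun k ⟨a, ha⟩ => ⟨a, isSig_iff.2 ha⟩
  · rcases L.eq_empty_or_nonempty with rfl | hL
    · refine hS _ _ ?_ h0
      rw [deepK_eq]
      refine (ev_mem _).mono fun k hk => ?_
      have hk1 : k = 1 := funext fun h => (hk h).2 (Finset.notMem_empty _)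
      have key : ∀ f ∈ Phi ρ I, Q2T14.sig ρ I f 1 = 1 := fun f hf =>
        (isSig_iff.2 ⟨by rw [TK, map_one, map_one, map_one],
          Eventually.of_forall fun _ => rfl⟩).eq_sig (free hf)
      rw [hk1, key f hf, key g hg]
    · have hc := hP.conn I L (sz_ch hC) hC.2.2.2 (by have := hC.2.2.1; omega) hL f hf g hg
      refine hS _ _ (sig_ev hP hC hg).symm ?_
      generalize nd ρ I g none = s at hc
      induction hc with
      | refl => exact hS _ _ (sig_ev hP hC hf) h0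
      | tail _ hs ih =>
        rcases hs with e | ⟨f', hf', h, hh, -, ⟨rfl, rfl⟩ | ⟨rfl, rfl⟩⟩
        · exact hS _ _ (deepK_eq I L ▸ e) ih
        · exact hS _ _ (tv_ev hP hC hf' h)
            ((hst f' h hf' hh).1 (hS _ _ (sig_ev hP hC hf').symm ih))
        · exact hS _ _ (sig_ev hP hC hf')
            ((hst f' h hf' hh).2 (hS _ _ (tv_ev hP hC hf' h).symm ih))
  · let S := {s | Relation.ReflTransGen
      (Step ρ I {h.1} fun f' h' => ¬ (h' = h ∧ f' =ᶠ[deep (sf I)] f)) (nd ρ I f none) s}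
    have hS : Q2T14.Sat I {h.1} S := fun s s' e hs =>
      Relation.ReflTransGen.tail hs (Or.inl (deepK_eq I {h.1} ▸ e))
    refine ⟨S, hS, hS _ _ (sig_ev hP hC hf).symm Relation.ReflTransGen.refl, fun ht => ?_,
      fun g k hg hk hne => ?_⟩
    · exact hP.bridge I {h.1} (sz_ch hC) hC.2.2.2 (by simp) f hf h (Finset.mem_singleton_self _)
        (hS _ _ (tv_ev hP hC hf h) ht)
    · rw [deep_eq] at hne
      exact ⟨fun h1 => hS _ _ (tv_ev hP hC hg k).symm (Relation.ReflTransGen.tail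
          (hS _ _ (sig_ev hP hC hg) h1)
          (Or.inr ⟨g, hg, k, Finset.mem_singleton.2 hk, hne, Or.inl ⟨rfl, rfl⟩⟩)),
        fun h1 => hS _ _ (sig_ev hP hC hg).symm (Relation.ReflTransGen.tail
          (hS _ _ (tv_ev hP hC hg k) h1)
          (Or.inr ⟨g, hg, k, Finset.mem_singleton.2 hk, hne, Or.inr ⟨rfl, rfl⟩⟩))⟩

end Pool.Agent.MP_3ce0a0_al.Q2T13
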