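import Pool.Agent.MP_3ce0a0_al.Q2T13.Spec

/-! Finitely many orbits of ports, and ports exist unless the action is trivial. -/

set_option autoImplicit false

open Filter

namespace Pool.Agent.MP_3ce0a0_al.Q2T13

open H79 Q2T1 Q2T15

namespace RFin

variable {A F : Type} [Group A] [Group F] {S : FTree F} {T : A → Out F} {K : Subgroup A}
  (Z : TS S T K)

theorem mkOut_cj (g : F) (e : S.E) : mkOut F (S.ι g * e * (S.ι g)⁻¹ : S.E) = mkOut F e := by
  rw [← map_inv, Subgroup.coe_mul, Subgroup.coe_mul, map_mul, map_mul, S.mkOut_ι, S.mkOut_ι,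
    one_mul, mul_one]

theorem triv (hn : ∀ v w : S.X, dist v w = 1 → ¬ NAG K (Z.f v w)) {k : A} (hk : k ∈ Z.H) :
    T k = 1 := by
  obtain ⟨v⟩ := S.ne
  have h1 : ∀ x y, dist x y = 1 → Z.τ x y k = Z.σ x k := fun x y h => by
    rw [TS.τ, (Z.alt x y h).resolve_right (hn x y h) k hk, map_one, one_mul]
  have h2 : ∀ w, Z.σ w k = Z.σ v k := S.path_ind rfl fun x y h hx => by
    rw [← h1 y x (by rw [dist_comm, h]), Z.τ_symm h hk, h1 x y h, hx]
  have h3 : ∀ w, Z.σ v k • w = w := fun w => h2 w ▸ Z.fix w k hk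
  have h4 : (Z.σ v k : MulAut F) = 1 := by
    ext g
    by_cases hg : S.ι g • v = v
    · exact Z.cen v k hk g hg
    · obtain ⟨z, hz, -⟩ := IsSimp.geo v _ (Ne.symm hg)
      have h5 : ∀ x, S.ι (g⁻¹ * (Z.σ v k : MulAut F) g) • x = x := fun x => by
        have := S.smul_ι (Z.σ v k) g x
        rw [h3, h3] at this
        rw [map_mul, mul_smul, ← this, map_inv, inv_smul_smul]
      exact (inv_mul_eq_one.1 (S.edge _ v z hz (h5 v) (h5 z))).symm
  rw [← Z.lift v k hk, h4, map_one]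

variable [IsFreeGroup F]

theorem cj {v w : S.X} (h : dist v w = 1) (hn : NAG K (Z.f v w)) (g : F) {k : A} (hk : k ∈ Z.H) :
    Z.f v w k = g⁻¹ * Z.f (S.ι g • v) (S.ι g • w) k * g⁻¹⁻¹ := by
  have h' : dist (S.ι g • v) (S.ι g • w) = 1 := by rw [dist_smul, h]
  have e1 : Z.σ v k = S.ι g⁻¹ * Z.σ (S.ι g • v) k * (S.ι g⁻¹)⁻¹ := by
    refine Subtype.ext (lift_unique hn ?_ (Z.fixes h hk) (Z.dp.ev.mono fun b hb => ?_))
    · rw [mkOut_cj, Z.lift _ k hk, Z.lift _ k hk]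
    · have : S.ι (g * Z.f v w b * g⁻¹) • S.ι g • v = S.ι g • v := by
        rw [← mul_smul, ← map_mul, inv_mul_cancel_right, map_mul, mul_smul, Z.ffix v w h b hb]
      have e := Z.cen _ k hk _ this
      rw [← map_inv, inv_inv, Subgroup.coe_mul, Subgroup.coe_mul, S.coe_ι, S.coe_ι,
        MulAut.mul_apply, MulAut.mul_apply, MulAut.conj_apply g, e, MulAut.conj_apply]
      group
  have e2 : S.ι g⁻¹ * Z.τ (S.ι g • v) (S.ι g • w) k * (S.ι g⁻¹)⁻¹ = Z.τ v w k := by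
    refine Z.eq_τ h hk ?_ ?_ ?_
    · rw [mkOut_cj, Z.τ_lift _ _ hk]
    · rw [map_inv, inv_inv, mul_smul, mul_smul, Z.τ_fix1 h' hk, inv_smul_smul]
    · rw [map_inv, inv_inv, mul_smul, mul_smul, Z.τ_fix2 h' hk, inv_smul_smul]
  have e3 : S.ι (Z.f v w k) = S.ι (g⁻¹ * Z.f (S.ι g • v) (S.ι g • w) k * g⁻¹⁻¹) := by
    rw [TS.τ, TS.τ, e1] at e2
    refine mul_right_cancel (e2.symm.trans ?_)
    simp only [map_mul, map_inv]
    group
  exact hn.conj_inj (by rw [← S.coe_ι, ← S.coe_ι, e3])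

end RFin

theorem rowFin : StmtFin := by
  intro A F _ _ _ S T K Z
  refine ⟨?_, fun hn k hk => RFin.triv Z hn hk⟩
  obtain ⟨s, hs, h⟩ := S.fin
  refine ⟨(fun p : S.X × S.X => Z.f p.1 p.2) '' s, hs.image _, fun v w hd hn => ?_⟩
  obtain ⟨g, hg⟩ := h v w hd
  exact ⟨_, ⟨_, hg, rfl⟩, g⁻¹, Z.dp.ev.mono fun k hk => RFin.cj Z hd hn g hk⟩

end Pool.Agent.MP_3ce0a0_al.Q2T13
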