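import Pool.Agent.MP_3ce0a0_al.Q2T13.Spec

/-! The three instances of the restriction of a free twist group. -/

set_option autoImplicit false

open Filter

namespace Pool.Agent.MP_3ce0a0_al.Q2T13

open H79 Q2T1 Q2T15

namespace RInst

open Classical

variable {α F : Type} [Group F] [IsFreeGroup F] {ρ : Out (FreeGroup α) →* Out F}
  {L I : Finset α}

theorem sub_compl (hA : Adm L I) : (I : Set α) ⊆ (L : Set α)ᶜ := fun _ hx hx' =>
  Finset.disjoint_left.1 hA.1 (Finset.mem_coe.1 hx) (Finset.mem_coe.1 hx')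

theorem tau_eq (hA : Adm L I) {h : α × Bool} (hh : h.1 ∈ L) {b : FreeGroup α} (hb : b ∈ sf I) :
    tau h b = multiO (L : Set α)ᶜ (Pi.mulSingle h b) := by
  rw [tau_apply, multiO_apply]
  exact congrArg _ (multi_mulSingle (I := (L : Set α)ᶜ) (fun e => e (Finset.mem_coe.2 hh))
    (std_mono (sub_compl hA) hb)).symm

theorem one (pull : StmtPull) (Y : FT ρ L) (hA : Adm L I) (hI : 2 ≤ I.card) {h : α × Bool}
    (hh : h.1 ∈ L) : Nonempty (TS Y.toFTree (T1 ρ h) (sf I)) ∧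
      ∀ f, f ∈ PhiG (T1 ρ h) (sf I) ↔ ∃ v w φ, Y.IsPort v w h φ ∧ f =ᶠ[deep (sf I)] φ := by
  have e : ∀ b : FreeGroup α,
      MonoidHom.mulSingle (fun _ : α × Bool => FreeGroup α) h b h = b := fun b => by
    rw [MonoidHom.mulSingle_apply, Pi.mulSingle_eq_same]
  obtain ⟨h1, h2⟩ := pull α F (FreeGroup α) ρ L I Y
    (MonoidHom.mulSingle (fun _ : α × Bool => FreeGroup α) h) (sf I) (T1 ρ h) {h} hA
    (fun k hk => mulSingle_mem_KK hh hk) (fun k hk => congrArg ρ (tau_eq hA hh hk))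
    (fun h' hn k _ => Pi.mulSingle_eq_of_ne (M := fun _ : α × Bool => FreeGroup α) hn k)
    (by
      rintro _ rfl
      simpa only [e] using nag_sf hI)
  refine ⟨h1, fun f => (h2 f).trans ⟨?_, ?_⟩⟩
  · rintro ⟨v, w, _, φ, rfl, h3, h4⟩
    exact ⟨v, w, φ, h3, by simpa only [e] using h4⟩
  · rintro ⟨v, w, φ, h3, h4⟩
    exact ⟨v, w, h, φ, rfl, h3, by simpa only [e] using h4⟩

/-- The diagonal at two labels. -/
noncomputable def dg (h h' : α × Bool) : FreeGroup α →* (α × Bool → FreeGroup α) where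
  toFun b := fun l => if l = h ∨ l = h' then b else 1
  map_one' := by
    funext l
    simp
  map_mul' a b := by
    funext l
    by_cases e : l = h ∨ l = h' <;> simp [e]

theorem dg_of {h h' l : α × Bool} (e : l = h ∨ l = h') (b : FreeGroup α) : dg h h' b l = b :=
  if_pos e

theorem dg_not {h h' l : α × Bool} (e : ¬ (l = h ∨ l = h')) (b : FreeGroup α) :
    dg h h' b l = 1 := if_neg e

theorem dg_eq {h h' : α × Bool} (hne : h ≠ h') (b : FreeGroup α) :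
    dg h h' b = Pi.mulSingle h b * Pi.mulSingle h' b := by
  funext l
  rw [Pi.mul_apply]
  by_cases e : l = h
  · rw [dg_of (Or.inl e), e, Pi.mulSingle_eq_same, Pi.mulSingle_eq_of_ne hne, mul_one]
  · by_cases e' : l = h'
    · rw [dg_of (Or.inr e'), Pi.mulSingle_eq_of_ne e, e', Pi.mulSingle_eq_same, one_mul]
    · rw [dg_not (not_or.2 ⟨e, e'⟩), Pi.mulSingle_eq_of_ne e, Pi.mulSingle_eq_of_ne e', mul_one]

theorem two (pull : StmtPull) (Y : FT ρ L) (hA : Adm L I) (hI : 2 ≤ I.card) {h h' : α × Bool}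
    (hh : h.1 ∈ L) (hh' : h'.1 ∈ L) (hne : h ≠ h') (f : FreeGroup α → F) :
    f ∈ PhiG (fun b => ρ (tau h b * tau h' b)) (sf I) ↔
      f ∈ PhiG (T1 ρ h) (sf I) ∨ f ∈ PhiG (T1 ρ h') (sf I) := by
  obtain ⟨-, h2⟩ := pull α F (FreeGroup α) ρ L I Y (dg h h') (sf I)
    (fun b => ρ (tau h b * tau h' b)) {l | l = h ∨ l = h'} hA
    (fun k hk => by
      rw [dg_eq hne]
      exact mul_mem (mulSingle_mem_KK hh hk) (mulSingle_mem_KK hh' hk))
    (fun k hk => by rw [dg_eq hne, map_mul (multiO _), tau_eq hA hh hk, tau_eq hA hh' hk])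
    (fun l hn k _ => dg_not hn k)
    (fun l hl => by simpa only [dg_of hl] using nag_sf hI)
  rw [h2, (one pull Y hA hI hh).2, (one pull Y hA hI hh').2]
  constructor
  · rintro ⟨v, w, l, φ, hl, h3, h4⟩
    simp only [dg_of hl] at h4
    rcases hl with rfl | rfl
    · exact Or.inl ⟨v, w, φ, h3, h4⟩
    · exact Or.inr ⟨v, w, φ, h3, h4⟩
  · rintro (⟨v, w, φ, h3, h4⟩ | ⟨v, w, φ, h3, h4⟩)
    · exact ⟨v, w, h, φ, Or.inl rfl, h3, by simpa only [dg_of (Or.inl rfl)] using h4⟩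
    · exact ⟨v, w, h', φ, Or.inr rfl, h3, by simpa only [dg_of (Or.inr rfl)] using h4⟩

theorem nag_pr (hI : 2 ≤ I.card) {L₀ : Finset α} {h : α × Bool} (hh : h.1 ∈ L₀) :
    NAG (KK (sf I) L₀) fun k => k h := fun H hH => by
  have h1 : ∀ᶠ b in deep (sf I), ∃ k ∈ H, k h = b :=
    (ev_pr (P := fun b => ∃ k ∈ H, k h = b) hh).1 (hH.ev.mono fun k hk => ⟨k, hk, rfl⟩)
  obtain ⟨_, _, ⟨a, ha, rfl⟩, ⟨b, hb, rfl⟩, hc⟩ := (nag_sf hI).of_ev h1
  exact ⟨a, ha, b, hb, hc⟩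

theorem all (pull : StmtPull) (Y : FT ρ L) (hA : Adm L I) (hI : 2 ≤ I.card) {L₀ : Finset α}
    (hL : L₀ ⊆ L) : Nonempty (TS Y.toFTree (TK ρ I) (KK (sf I) L₀)) ∧
      ∀ g, g ∈ PhiG (TK ρ I) (KK (sf I) L₀) ↔ ∃ h : α × Bool, h.1 ∈ L₀ ∧
        ∃ f ∈ PhiG (T1 ρ h) (sf I), g =ᶠ[deep (KK (sf I) L₀)] fun k => f (k h) := by
  obtain ⟨h1, h2⟩ := pull α F (α × Bool → FreeGroup α) ρ L I Y (MonoidHom.id _) (KK (sf I) L₀)
    (TK ρ I) {l | l.1 ∈ L₀} hA (fun k hk => KK_mono le_rfl hL hk)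
    (fun k hk => by
      rw [TK, multiO_apply, multiO_apply, MonoidHom.id_apply,
        multi_congr (I := I) (L := L) le_rfl (sub_compl hA)
          (fun x hx e => Finset.disjoint_left.1 hA.1 (Finset.mem_coe.1 e) hx)
          (fun x hx e => e (Finset.mem_coe.2 hx)) (KK_mono le_rfl hL hk)])
    (fun l hn k hk => (hk l).2 hn) (fun l hl => nag_pr hI hl)
  refine ⟨h1, fun g => (h2 g).trans ⟨?_, ?_⟩⟩
  · rintro ⟨v, w, l, φ, hl, h3, h4⟩
    exact ⟨l, hl, φ, ((one pull Y hA hI (hL hl)).2 φ).2 ⟨v, w, φ, h3, EventuallyEq.rfl⟩, h4⟩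
  · rintro ⟨l, hl, f, hf, h4⟩
    obtain ⟨v, w, φ, h3, h5⟩ := ((one pull Y hA hI (hL hl)).2 f).1 hf
    exact ⟨v, w, l, φ, hl, h3, h4.trans ((tendsto_pr (sf I) L₀ l).eventually h5)⟩

end RInst

theorem rowInst (pull : StmtPull) : StmtInst := fun _ _ _ _ _ _ _ Y hA hI =>
  ⟨fun _ hh => (RInst.one pull Y hA hI hh).1, fun _ hh => (RInst.one pull Y hA hI hh).2,
    fun _ _ hh hh' hne => RInst.two pull Y hA hI hh hh' hne,
    fun _ hL => (RInst.all pull Y hA hI hL).1, fun _ hL => (RInst.all pull Y hA hI hL).2⟩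

end Pool.Agent.MP_3ce0a0_al.Q2T13
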