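import Pool.Agent.MP_3ce0a0_al.Q2T13.Spec

/-! The ports of one label. -/

set_option autoImplicit false

open Filter

namespace Pool.Agent.MP_3ce0a0_al.Q2T13

open H79 Q2T1 Q2T15

namespace RPA

variable {α : Type}

theorem tau_inj {I : Finset α} (hI : 2 ≤ I.card) {h : α × Bool} (hh : h.1 ∉ I) {b : FreeGroup α}
    (hb : b ∈ sf I) (e : tau h b = 1) : b = 1 := by
  obtain ⟨x, hx, y, hy, hxy⟩ := Finset.one_lt_card.1 (show 1 < I.card by omega)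
  have e1 : tw h b = 1 := eq_one_of_mkOut hxy (tw_of_ne h b fun k => hh (k ▸ hx))
    (tw_of_ne h b fun k => hh (k ▸ hy)) e
  obtain ⟨z, s⟩ := h
  have hb' := mem_std_compl (I := (I : Set α)) (y := z) hh hb
  cases s
  · have := tw_false hb'
    rw [e1, MulAut.one_apply] at this
    exact inv_eq_one.1 (mul_eq_right.1 this.symm)
  · have := tw_true hb'
    rw [e1, MulAut.one_apply] at this
    exact mul_eq_left.1 this.symm

theorem setup {F : Type} [Fintype α] [Group F] {ρ : Out (FreeGroup α) →* Out F} (hs : Std ρ)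
    {I : Finset α} (hI : Sz I) {h : α × Bool} (hh : h.1 ∉ I) :
    ∃ (L : Finset α) (_ : FT ρ L), h.1 ∈ L ∧ Adm L I := by
  obtain ⟨L, h1, h2, h3⟩ := ex_four hs.card (L₀ := {h.1}) hI.2
    (Finset.disjoint_singleton_right.2 hh) (by simp)
  obtain ⟨Y⟩ := hs.ft L h2
  exact ⟨L, Y, h1 (Finset.mem_singleton_self _), h3⟩

end RPA

open RPA

theorem rowPA (sup : StmtSup) (sub : StmtSub) (fin : StmtFin) (inst : StmtInst) : StmtPA := by
  intro α F _ _ _ ρ hs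
  refine ⟨fun I hI h hh => ?_, fun I hI h hh f hf => ?_, fun I hI h hh => ?_,
    fun I J hI hJ hJI h hh f hf => ?_, fun I J hI hJ hJI h hh f hf => ?_⟩
  all_goals
    obtain ⟨L, Y, hL, hA⟩ := setup hs hI hh
    have i1 := inst α F ρ L I Y hA hI.1
  · obtain ⟨Z⟩ := i1.ts1 h hL
    by_contra hn
    have h1 := (fin _ _ _ _ _ Z).2 fun v w k n => hn ⟨_, sup _ _ _ _ _ Z v w k n⟩
    obtain ⟨b, hb, n⟩ := (nag_sf hI.1).ex_ne Z.dp.ev
    exact n (tau_inj hI.1 hh (Z.dp.1 hb) (hs.inj ((h1 b hb).trans (map_one ρ).symm)))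
  · obtain ⟨v, w, φ, p, G, g1, g2⟩ := (i1.one h hL f).1 hf
    have g3 : ∀ k ∈ G, f k = φ k := g2
    refine ⟨G ⊓ (sf I ⊓ Y.D), g1.inf (dp_inf (Y.hD I hA)), fun a ha b hb => ?_,
      fun a ha e => p.inj I hA a ha.2 ((g3 a ha.1).symm.trans e)⟩
    rw [g3 _ (G.mul_mem ha.1 hb.1), g3 a ha.1, g3 b hb.1, p.hom I hA a ha.2 b hb.2]
  · obtain ⟨Z⟩ := i1.ts1 h hL
    obtain ⟨s, s1, s2⟩ := (fin _ _ _ _ _ Z).1
    refine ⟨s, s1, fun f hf => ?_⟩
    obtain ⟨v, w, k, n, e⟩ := sub _ _ _ _ _ Z f hf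
    obtain ⟨f₀, h0, g, e'⟩ := s2 v w k n
    exact ⟨f₀, h0, g, e.trans e'⟩
  · obtain ⟨v, w, φ, p, e⟩ := (i1.one h hL f).1 hf
    exact ((inst α F ρ L J Y (hA.mono hJI) hJ.1).one h hL f).2
      ⟨v, w, φ, p, e.filter_mono (deep_mono (sf_mono hJI))⟩
  · obtain ⟨v, w, φ, p, e⟩ := ((inst α F ρ L J Y (hA.mono hJI) hJ.1).one h hL f).1 hf
    exact ⟨φ, (i1.one h hL φ).2 ⟨v, w, φ, p, EventuallyEq.rfl⟩, e⟩

end Pool.Agent.MP_3ce0a0_al.Q2T13
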