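import Pool.Agent.MP_3ce0a0_al.Q2T13.Spec

/-! Row PB: the ports do not depend on the label. -/

set_option autoImplicit false

open Filter

namespace Pool.Agent.MP_3ce0a0_al.Q2T13

open H79 Q2T1 Q2T15

namespace RPB

/-- A counting argument. -/
theorem absorb {X : Type} (r : Setoid X) (P : Set X) (u : X → X)
    (hu : ∀ x y, r (u x) (u y) → r x y) (hmap : ∀ x ∈ P, u x ∈ P)
    (fin : ∃ s : Set X, s.Finite ∧ ∀ x ∈ P, ∃ y ∈ s, r x y) (hcl : ∀ x ∈ P, ∀ y, r x y → y ∈ P)
    {x : X} (hx : u x ∈ P) : x ∈ P := by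
  obtain ⟨s, hs, h⟩ := fin
  have hS : (Quotient.mk r '' P).Finite := (hs.image (Quotient.mk r)).subset (by
    rintro _ ⟨y, hy, rfl⟩
    obtain ⟨z, hz, e⟩ := h y hy
    exact ⟨z, hz, (Quotient.sound e).symm⟩)
  have hout : ∀ q ∈ Quotient.mk r '' P, q.out ∈ P := by
    rintro _ ⟨y, hy, rfl⟩
    exact hcl y hy _ (r.symm (Quotient.mk_out y))
  let U : Quotient r → Quotient r := fun q => Quotient.mk r (u q.out)
  have hm : Set.MapsTo U (Quotient.mk r '' P) (Quotient.mk r '' P) := fun q hq =>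
    ⟨_, hmap _ (hout q hq), rfl⟩
  have hi : Set.InjOn U (Quotient.mk r '' P) := fun q _ q' _ e => by
    rw [← q.out_eq, ← q'.out_eq]
    exact Quotient.sound (hu _ _ (Quotient.exact e))
  obtain ⟨q, hq, e⟩ := ((hS.injOn_iff_bijOn_of_mapsTo hm).1 hi).surjOn ⟨_, hx, rfl⟩
  exact hcl _ (hout q hq) _ (hu _ _ (Quotient.exact e))

variable {A F : Type} [Group A] [Group F]

/-- Conjugate germs. -/
def cj (K : Subgroup A) : Setoid (A → F) where
  r f f' := ∃ g : F, f =ᶠ[deep K] fun b => g * f' b * g⁻¹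
  iseqv :=
    { refl := fun f => ⟨1, Eventually.of_forall fun b => by simp⟩
      symm := fun ⟨g, h⟩ => ⟨g⁻¹, h.mono fun b hb => by
        simp only [hb]
        group⟩
      trans := fun ⟨g, h⟩ ⟨g', h'⟩ => ⟨g * g', (h.and h').mono fun b hb => by
        simp only [hb.1, hb.2]
        group⟩ }

variable [IsFreeGroup F]

theorem nat1 (nat : StmtNat) {T T' : A → Out F} {K : Subgroup A} (a : MulAut F)
    (h : ∀ k ∈ K, T' k = mkOut F a * T k * (mkOut F a)⁻¹) {f : A → F} (hf : f ∈ PhiG T K) :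
    (fun b => a (f b)) ∈ PhiG T' K :=
  nat A F T T' K K 1 a (fun _ => Iff.rfl) ((ev_mem K).mono h) f hf

theorem closed (nat : StmtNat) {T : A → Out F} {K : Subgroup A} {f f' : A → F}
    (hf : f ∈ PhiG T K) (h : cj K f f') : f' ∈ PhiG T K := by
  obtain ⟨g, hg⟩ := (cj K).symm h
  exact phiG_congr (nat1 nat (MulAut.conj g)
    (fun k _ => by rw [mkOut_conj, one_mul, inv_one, mul_one]) hf) hg.symm

theorem key (nat : StmtNat) (inst : StmtInst) {α : Type} [Fintype α]
    {ρ : Out (FreeGroup α) →* Out F} (hS : Std ρ) (hA : PA ρ) {I : Finset α} (hI : Sz I)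
    {h j : α × Bool} (hh : h.1 ∉ I) (hj : j.1 ∉ I) (hne : j.1 ≠ h.1) :
    PhiG (T1 ρ j) (sf I) ⊆ PhiG (T1 ρ h) (sf I) := by
  classical
  obtain ⟨L, hL, h4, hadm⟩ := ex_four hS.card hI.2 (L₀ := {h.1, j.1})
    (by simp [Finset.disjoint_insert_right, hh, hj]) (Finset.card_le_two.trans (by norm_num))
  obtain ⟨Y⟩ := hS.ft L h4
  have two := (inst α F ρ L I Y hadm hI.1).two h j (hL (by simp)) (hL (by simp))
    fun e => hne (by rw [e])
  obtain ⟨ψ, hψ, -⟩ := slide_exists_out (I := (I : Set α)) (y := h.1) h.2 hne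
    (by simpa using hh) (by simpa using hj)
  obtain ⟨a, ha⟩ := mkOut_surjective F (ρ ψ)⁻¹
  have hmap : ∀ f, f ∈ PhiG (T1 ρ h) (sf I) ∨ f ∈ PhiG (T1 ρ j) (sf I) →
      (fun b => a (f b)) ∈ PhiG (T1 ρ h) (sf I) := by
    intro f hf
    refine nat1 nat a (fun k hk => ?_) ((two f).2 hf)
    have e : ψ * tau h k * ψ⁻¹ = tau h k * tau j k := hψ k hk
    rw [ha, ← e, map_mul, map_mul, map_inv, T1]
    group
  intro f hf
  refine absorb (cj (sf I)) _ (fun f b => a (f b)) ?_ (fun f hf => hmap f (Or.inl hf))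
    (hA.fin I hI h hh) (fun f hf f' e => closed nat hf e) (hmap f (Or.inr hf))
  rintro f f' ⟨g, hg⟩
  refine ⟨a.symm g, hg.mono fun b hb => a.injective ?_⟩
  simp only [map_mul, map_inv, MulEquiv.apply_symm_apply]
  exact hb

end RPB

open RPB in
theorem rowPB (nat : StmtNat) (inst : StmtInst) : StmtPB := by
  classical
  intro α F _ _ _ ρ hS hA I hI h hh
  refine Set.Subset.antisymm ?_ fun f hf => ⟨h, hh, hf⟩
  rintro f ⟨j, hj, hf⟩
  by_cases c : j.1 = h.1
  · obtain ⟨x, hx⟩ := ex_not_mem (I := insert h.1 I) (by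
      have := Finset.card_insert_le h.1 I
      have := hI.2
      have := hS.card
      omega)
    rw [Finset.mem_insert, not_or] at hx
    exact key nat inst hS hA hI hh (j := (x, true)) hx.2 hx.1
      (key nat inst hS hA hI (h := (x, true)) hx.2 hj (fun e => hx.1 (e.symm.trans c)) hf)
  · exact key nat inst hS hA hI hh hj c hf

end Pool.Agent.MP_3ce0a0_al.Q2T13
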