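import Pool.Agent.MP_3ce0a0_al.Q2T13.Spec
import Pool.Agent.MP_3ce0a0_al.Q2T15.Basic

/-! Invariance of the set of ports. -/

set_option autoImplicit false

open Filter

namespace Pool.Agent.MP_3ce0a0_al.Q2T13

open H79 Q2T1 Q2T15

theorem rowPC (nat : StmtNat) : StmtPC := by
  intro α F _ _ _ ρ _ hB
  refine ⟨fun I f ⟨h, hh, hf⟩ g => ⟨h, hh, ?_⟩, fun I hI x hx γ hγ hs a ha f hf => ?_,
    fun I hI w hw f hf => ?_⟩
  · exact nat _ F _ _ _ _ 1 (MulAut.conj g) (fun _ => Iff.rfl) (Eventually.of_forall fun k => by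
      rw [mkOut_conj, one_mul, inv_one, mul_one, MulAut.one_apply]) f hf
  · rw [hB I hI (x, false) hx] at hf ⊢
    refine nat _ F _ _ _ _ γ a hs ((ev_mem _).mono fun k hk => ?_) f hf
    have hk' : k ∈ std ({x}ᶜ : Set α) := Subgroup.closure_mono
      (Set.image_mono (Set.subset_compl_singleton_iff.2 (by simpa using hx))) hk
    have e := conj_tw (γ := γ) (h := (x, false)) (hγ.1 x (by simp))
      (fun z hz => (hγ.2 _).2 (of_mem_std hz)) hk'
    simp only [ha, T1, tau, MonoidHom.comp_apply, ← e, map_mul, map_inv]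
  · obtain ⟨h, hh, -⟩ := id hf
    obtain ⟨a, ha⟩ := mkOut_surjective F (ρ (tau h w⁻¹))
    have hne : h ≠ (h.1, !h.2) := fun e => by simpa using congrArg Prod.snd e
    rw [hB I hI (h.1, !h.2) hh] at hf
    have h1 := nat _ F _ (T1 ρ (h.1, !h.2)) _ _ 1 a⁻¹ (fun _ => Iff.rfl)
      ((ev_mem _).mono fun k hk => by
        have c := ((tau_commute (I := (I : Set α)) hne hh hh (inv_mem hw) hk).map ρ).inv_left
        rw [map_inv, ha, MulAut.one_apply, T1, c.eq, mul_inv_cancel_right]) f hf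
    rw [← hB I hI (h.1, !h.2) hh, hB I hI h hh] at h1
    have h2 := nat _ F _ (T1 ρ h) _ (sf I) (MulAut.conj w⁻¹) a (fun k => by
      rw [MulAut.conj_apply, Subgroup.mul_mem_cancel_right _ (inv_mem (inv_mem hw)),
        Subgroup.mul_mem_cancel_left _ (inv_mem hw)]) (Eventually.of_forall fun k => by
      rw [MulAut.conj_apply]
      simp only [ha, T1, map_mul, map_inv]) _ h1
    rw [hB I hI h hh]
    simpa using h2

end Pool.Agent.MP_3ce0a0_al.Q2T13
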