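import Pool.Agent.MP_3ce0a0_al.Q2T13.Spec

/-! Row PD: restriction of ports is injective. -/

set_option autoImplicit false

open Filter

namespace Pool.Agent.MP_3ce0a0_al.Q2T13

open H79 Q2T1 Q2T15

theorem rowPD : StmtPD := by
  intro α F _ _ _ _ ρ hS hA hB h0 I J hJ hI hJI f hf f' hf' e
  have hα := hS.card
  have hJI' := Finset.card_le_card hJI
  obtain ⟨a, b, c, ha, hb, hc, hab, hac, hbc⟩ := Finset.two_lt_card_iff.1 (show 2 < J.card by omega)
  obtain ⟨q, hq⟩ := ex_not_mem (I := I) (by omega)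
  have c1 := Finset.card_insert_of_notMem hq
  obtain ⟨p, hp⟩ := ex_not_mem (I := insert q I) (by omega)
  have c2 := Finset.card_insert_of_notMem hp
  obtain ⟨x, hx⟩ := ex_not_mem (I := insert p (insert q I)) (by omega)
  have s1 : Sz I := ⟨by omega, by omega⟩
  have s2 : Sz (insert p (insert q I)) := ⟨by omega, by omega⟩
  have hsub : I ⊆ insert p (insert q I) :=
    (Finset.subset_insert q I).trans (Finset.subset_insert p _)
  have hext : ∀ g ∈ Phi ρ I, ∃ g' ∈ Phi ρ (insert p (insert q I)), g =ᶠ[deep (sf I)] g' := by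
    intro g hg
    rw [hB I s1 (x, true) fun h => hx (hsub h)] at hg
    rw [hB _ s2 (x, true) hx]
    exact hA.onto _ I s2 s1 hsub (x, true) hx g hg
  obtain ⟨g, hg, e1⟩ := hext f hf
  obtain ⟨g', hg', e2⟩ := hext f' hf'
  have hpI : p ∉ I := fun h => hp (Finset.mem_insert_of_mem h)
  have hpq : p ≠ q := fun h => hp (h ▸ Finset.mem_insert_self q I)
  have hp2 : p ∈ insert p (insert q I) := Finset.mem_insert_self _ _
  have hq2 : q ∈ insert p (insert q I) := Finset.mem_insert_of_mem (Finset.mem_insert_self _ _)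
  have n1 : ∀ y ∈ J, p ≠ y := fun y hy h => hpI (h ▸ hJI hy)
  have n2 : ∀ y ∈ J, q ≠ y := fun y hy h => hq (h ▸ hJI hy)
  have habc : ({a, b, c} : Finset α) ⊆ J := by
    simp only [Finset.insert_subset_iff, Finset.singleton_subset_iff]
    exact ⟨ha, hb, hc⟩
  have e3 : g =ᶠ[deep (sf {a, b, c})] g' :=
    (((e1.filter_mono (deep_mono (sf_mono hJI))).symm.trans e).trans
      (e2.filter_mono (deep_mono (sf_mono hJI)))).filter_mono (deep_mono (sf_mono habc))
  have e4 := h0 _ s2 a b c (hsub (hJI ha)) (hsub (hJI hb)) (hsub (hJI hc)) hab hac hbc g hg g' hg' e3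
  have hpqc : ({p, q, c} : Finset α) ⊆ ((insert p (insert q I)).erase a).erase b := by
    simp only [Finset.insert_subset_iff, Finset.singleton_subset_iff, Finset.mem_erase]
    exact ⟨⟨n1 b hb, n1 a ha, hp2⟩, ⟨n2 b hb, n2 a ha, hq2⟩, hbc.symm, hac.symm, hsub (hJI hc)⟩
  have e5 := h0 _ s2 p q c hp2 hq2 (hsub (hJI hc)) hpq (n1 c hc) (n2 c hc) g hg g' hg'
    (e4.filter_mono (deep_mono (sf_mono hpqc)))
  rw [Finset.erase_insert hp, Finset.erase_insert hq] at e5
  exact (e1.trans e5).trans e2.symm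

end Pool.Agent.MP_3ce0a0_al.Q2T13
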