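import Pool.Agent.MP_3ce0a0_al.Q2T13.Spec

/-! The graphs of sections of the multitwists. -/

set_option autoImplicit false

open Filter

namespace Pool.Agent.MP_3ce0a0_al.Q2T13

open H79 Q2T1 Q2T15

namespace RPE

variable {α F : Type} [Group F] {ρ : Out (FreeGroup α) →* Out F} {I L : Finset α}
  {h : α × Bool} {f : FreeGroup α → F}

theorem fixes_pr (hh : h.1 ∈ L) (f : FreeGroup α → F) :
    (Fixes (KK (sf I) L) fun k => f (k h)) = Fixes (sf I) f :=
  funext fun a => propext (ev_pr hh (P := fun b => a (f b) = f b))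

theorem sig_pr (hh : h.1 ∈ L) (f : FreeGroup α → F) :
    (sig (KK (sf I) L) fun k => f (k h)) = sig (sf I) f := by
  funext g
  unfold sig
  rw [fixes_pr hh]

theorem sg_pr (hh : h.1 ∈ L) (f : FreeGroup α → F) :
    (sg (TK ρ I) (KK (sf I) L) fun k => f (k h)) = nd ρ I f none := by
  funext k
  rw [sg, sig_pr hh]
  rfl

theorem tg_pr (hh : h.1 ∈ L) (f : FreeGroup α → F) :
    (tg (TK ρ I) (KK (sf I) L) fun k => f (k h)) = nd ρ I f (some h) := by
  funext k
  rw [tg, sig_pr hh]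
  rfl

/-- Two labelled ports with the same germ on the product have the same label and germ. -/
theorem lab_eq {f' : FreeGroup α → F} {h' : α × Bool} (hh : h.1 ∈ L) (hf : f ∈ Phi ρ I)
    (hf' : f' ∈ Phi ρ I)
    (e : (fun k : α × Bool → FreeGroup α => f' (k h')) =ᶠ[deep (KK (sf I) L)] fun k => f (k h)) :
    h' = h ∧ f' =ᶠ[deep (sf I)] f := by
  classical
  by_cases hne : h' = h
  · subst hne
    exact ⟨rfl, (ev_pr hh (P := fun b => f' b = f b)).1 e⟩
  · exfalso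
    obtain ⟨x, -, hx⟩ := hf'
    obtain ⟨H, -, hH⟩ := hx.1.1
    have t := tendsto_deep (MonoidHom.mulSingle (fun _ : α × Bool => FreeGroup α) h)
      (K := KK (sf I) L) (K' := sf I) fun b hb => mulSingle_mem_KK hh hb
    refine (phi_nag hf).not_triv ((t.eventually e).mono fun b hb => ?_)
    simp only [MonoidHom.mulSingle_apply, Pi.mulSingle_eq_same, Pi.mulSingle_eq_of_ne hne] at hb
    rw [← hb, hom_one hH]

variable [Fintype α] [IsFreeGroup F]

theorem setup (inst : StmtInst) (hS : Std ρ) (hB : PB ρ) (hI : Sz I) (hd : Disjoint I L)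
    (hL : L.card ≤ 4) : (∃ S : FTree F, Nonempty (TS S (TK ρ I) (KK (sf I) L))) ∧
      ∀ g, g ∈ PhiG (TK ρ I) (KK (sf I) L) ↔ ∃ h : α × Bool, h.1 ∈ L ∧
        ∃ f ∈ Phi ρ I, g =ᶠ[deep (KK (sf I) L)] fun k => f (k h) := by
  obtain ⟨L', h1, h2, h3⟩ := ex_four hS.card hI.2 hd hL
  obtain ⟨Y⟩ := hS.ft L' h2
  have hi := inst α F ρ L' I Y h3 hI.1
  refine ⟨⟨_, hi.tsK L h1⟩, fun g => (hi.all L h1 g).trans (exists_congr fun h => ?_)⟩
  refine and_congr_right fun hh => ?_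
  rw [hB I hI h fun e => Finset.disjoint_left.1 hd e hh]

end RPE

open RPE in
theorem rowPE (tree : StmtTree) (inst : StmtInst) : StmtPE := by
  intro α F _ _ _ ρ hS hB
  refine ⟨fun I L hI hd hL f hf => ?_, fun I L hI hd hL hne f hf f' hf' => ?_,
    fun I L hI hd hL f hf h hh hr => ?_⟩
  · rcases L.eq_empty_or_nonempty with rfl | ⟨x, hx⟩
    · refine (ev_mem _).mono fun k hk => ⟨1, ?_, Eventually.of_forall fun _ => rfl⟩
      have : k = 1 := funext fun h => (hk h).2 (Finset.notMem_empty _)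
      rw [this, TK, map_one, map_one, map_one]
    · have hx' : ((x, true) : α × Bool).1 ∈ L := hx
      have := (((setup inst hS hB hI hd hL).2 _).2 ⟨_, hx', f, hf, EventuallyEq.rfl⟩).1.2.2
      rwa [fixes_pr hx'] at this
  · obtain ⟨x, hx⟩ := hne
    have hx' : ((x, true) : α × Bool).1 ∈ L := hx
    obtain ⟨⟨S, ⟨Z⟩⟩, hall⟩ := setup inst hS hB hI hd hL
    have := (tree _ F S _ _ Z).1 _ ((hall _).2 ⟨_, hx', f, hf, EventuallyEq.rfl⟩) _
      ((hall _).2 ⟨_, hx', f', hf', EventuallyEq.rfl⟩)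
    rw [sg_pr hx', sg_pr hx'] at this
    refine Relation.ReflTransGen.trans_induction_on this (fun _ => .refl) ?_ fun _ _ => .trans
    rintro s s' (e | ⟨g, hg, -, hs⟩)
    · exact .single (Or.inl e)
    · obtain ⟨h, hh, f0, hf0, e⟩ := (hall g).1 hg
      have e1 := (sg_congr (T := TK ρ I) e).trans (sg_pr hh f0)
      have e2 := tg_congr (T := TK ρ I) e
      rw [tg_pr hh] at e2
      rcases hs with ⟨rfl, rfl⟩ | ⟨rfl, rfl⟩
      · exact .tail (.single (Or.inr ⟨f0, hf0, h, hh, trivial, Or.inl ⟨e1, rfl⟩⟩)) (Or.inl e2.symm)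
      · exact .head (Or.inl e2) (.single (Or.inr ⟨f0, hf0, h, hh, trivial, Or.inr ⟨rfl, e1⟩⟩))
  · obtain ⟨⟨S, ⟨Z⟩⟩, hall⟩ := setup inst hS hB hI hd hL
    refine (tree _ F S _ _ Z).2 _ ((hall _).2 ⟨h, hh, f, hf, EventuallyEq.rfl⟩) ?_
    rw [sg_pr hh, tg_pr hh]
    refine Relation.ReflTransGen.mono ?_ _ _ hr
    rintro s s' (e | ⟨f', hf', h', hh', hok, hs⟩)
    · exact Or.inl e
    · refine Or.inr ⟨_, (hall _).2 ⟨h', hh', f', hf', EventuallyEq.rfl⟩,
        fun e => hok (lab_eq hh hf hf' e), ?_⟩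
      rwa [sg_pr hh', tg_pr hh']

end Pool.Agent.MP_3ce0a0_al.Q2T13
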