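import Pool.Agent.MP_3ce0a0_al.Q2T13.Spec

/-! Row Pull: restriction of a free twist group along a homomorphism. -/

set_option autoImplicit false

open Filter

namespace Pool.Agent.MP_3ce0a0_al.Q2T13

open H79 Q2T1 Q2T15

namespace RPull

variable {α F A : Type} [Group F] [Group A] {ρ : Out (FreeGroup α) →* Out F} {L I : Finset α}

theorem uniq {Y : FT0 ρ L} (hA : Adm L I) {v w : Y.X} {h h' : α × Bool} {φ φ' : FreeGroup α → F}
    (p : Y.IsPort v w h φ) (p' : Y.IsPort v w h' φ') {k : α × Bool → FreeGroup α}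
    (hk : k ∈ KK (sf I ⊓ Y.D) L) : φ (k h) = φ' (k h') := by
  have h1 := p.tfix I hA k hk
  have h2 := p'.tfix I hA k hk
  rw [mul_smul] at h1 h2
  refine mul_inv_eq_one.1 (Y.edge _ v w p.adj ?_ ?_)
  · rw [map_mul, map_inv, mul_smul, inv_smul_eq_iff.2 (p'.ffix I hA _ (hk h').1).symm,
      p.ffix I hA _ (hk h).1]
  · rw [map_mul, map_inv, mul_smul, inv_smul_eq_iff.2 h2.symm, h1]

theorem nag {Y : FT0 ρ L} (hA : Adm L I) {v w : Y.X} {h : α × Bool} {φ : FreeGroup α → F}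
    (p : Y.IsPort v w h φ) {j : A →* (α × Bool → FreeGroup α)} {K H : Subgroup A} (hH : Dp K H)
    (hj : ∀ k ∈ H, j k ∈ KK (sf I ⊓ Y.D) L) (hn : NAG K fun k => j k h) :
    NAG K fun k => φ (j k h) := fun G hG => by
  obtain ⟨a, ha, b, hb, hc⟩ := hn _ (hG.inf hH)
  exact ⟨a, ha.1, b, hb.1,
    not_commute_map (p.hom I hA) (p.inj I hA) (hj a ha.2 h).1 (hj b hb.2 h).1 hc⟩

end RPull

open RPull in
/-- Row Pull. -/
theorem rowPull (sup : StmtSup) (sub : StmtSub) : StmtPull := by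
  intro α F A _ _ _ ρ L I Y j K T act hA hK hT h0 hact
  have hH : Dp K ((KK (sf I ⊓ Y.D) L).comap j ⊓ K) :=
    (dp_KK (dp_inf (Y.hD I hA)) L).comap j hK
  have hf : ∀ v w : Y.X, ∃ f : A → F,
      (∃ h φ, Y.IsPort v w h φ ∧ f = fun k => φ (j k h)) ∨
        ((¬ ∃ h φ, Y.IsPort v w h φ) ∧ f = fun _ => 1) := fun v w => by
    by_cases hx : ∃ h φ, Y.IsPort v w h φ
    · obtain ⟨h, φ, p⟩ := hx
      exact ⟨_, Or.inl ⟨h, φ, p, rfl⟩⟩
    · exact ⟨_, Or.inr ⟨hx, rfl⟩⟩
  choose f hf using hf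
  have triv : ∀ (v w : Y.X) h φ, Y.IsPort v w h φ → h ∉ act → ∀ k ∈ K, φ (j k h) = 1 :=
    fun v w h φ p hh k hk => by rw [h0 h hh k hk]; exact hom_one (p.hom I hA)
  let Z : TS Y.toFTree T K :=
    { H := (KK (sf I ⊓ Y.D) L).comap j ⊓ K
      σ := fun v k => Y.σ v (j k)
      f := f
      dp := hH
      lift := fun v k hk => by rw [hT k hk.2]; exact Y.lift I hA _ hk.1 v
      fix := fun v k hk => Y.fix I hA _ hk.1 v
      cen := fun v k hk => Y.cen I hA _ hk.1 v
      ffix := fun v w _ k hk => by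
        rcases hf v w with ⟨h, φ, p, e⟩ | ⟨-, e⟩
        · rw [e]
          exact p.ffix I hA _ (hk.1 h).1
        · rw [e, map_one, one_smul]
      tfix := fun v w hvw k hk => by
        rcases hf v w with ⟨h, φ, p, e⟩ | ⟨hn, e⟩
        · rw [e]
          exact p.tfix I hA _ hk.1
        · rw [e, map_one, one_mul]
          exact ((Y.alt v w hvw).resolve_right hn) I hA _ hk.1
      hom := fun v w _ a ha b hb => by
        rcases hf v w with ⟨h, φ, p, e⟩ | ⟨-, e⟩
        · rw [e]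
          simp only [map_mul, Pi.mul_apply]
          exact p.hom I hA _ (ha.1 h).1 _ (hb.1 h).1
        · rw [e, one_mul]
      alt := fun v w _ => by
        rcases hf v w with ⟨h, φ, p, e⟩ | ⟨-, e⟩
        · rw [e]
          by_cases hh : h ∈ act
          · exact Or.inr (nag hA p hH (fun k hk => hk.1) (hact h hh))
          · exact Or.inl fun k hk => triv v w h φ p hh k hk.2
        · rw [e]
          exact Or.inl fun _ _ => rfl }
  refine ⟨⟨Z⟩, fun g => ⟨fun hg => ?_, ?_⟩⟩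
  · obtain ⟨v, w, -, hn, e⟩ := sub A F Y.toFTree T K Z g hg
    have hn' : NAG K (f v w) := hn
    have e' : g =ᶠ[deep K] f v w := e
    rcases hf v w with ⟨h, φ, p, e1⟩ | ⟨-, e1⟩
    · rw [e1] at hn' e'
      refine ⟨v, w, h, φ, ?_, p, e'⟩
      by_contra hh
      exact hn'.not_triv ((ev_mem K).mono fun k hk => triv v w h φ p hh k hk)
    · rw [e1] at hn'
      exact (hn'.not_triv (Eventually.of_forall fun _ => rfl)).elim
  · rintro ⟨v, w, h, φ, hh, p, e⟩
    have e2 : (fun k => φ (j k h)) =ᶠ[deep K] Z.f v w := by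
      show _ =ᶠ[deep K] f v w
      rcases hf v w with ⟨h', φ', p', e1⟩ | ⟨hn, -⟩
      · rw [e1]
        exact hH.ev.mono fun k hk => uniq hA p p' hk.1
      · exact (hn ⟨h, φ, p⟩).elim
    exact phiG_congr (sup A F Y.toFTree T K Z v w p.adj
      ((nag hA p hH (fun k hk => hk.1) (hact h hh)).congr e2)) (e.trans e2).symm

end Pool.Agent.MP_3ce0a0_al.Q2T13
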