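import Pool.Agent.MP_3ce0a0_al.Q2T13.Spec
import Pool.Agent.MP_3ce0a0_al.Q2T1.Serre

/-! Row Sub: every port is seen in the tree. -/

set_option autoImplicit false

open Filter

namespace Pool.Agent.MP_3ce0a0_al.Q2T13

open H79 Q2T1 Q2T15

namespace RSub

variable {A F : Type} [Group A] [Group F] (S : FTree F)

theorem ell_of_sq (e : S.E) (n : ℕ) : ∀ m : S.X, dist m (e • m) = n → e • e • m = m →
    Ell S.X e := by
  induction n using Nat.strong_induction_on with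
  | _ n ih =>
    intro m hd hm
    by_cases h0 : e • m = m
    · exact ⟨m, h0⟩
    obtain ⟨z, h1, h2⟩ := IsSimp.geo m (e • m) (Ne.symm h0)
    by_cases h3 : z = e • m
    · exact absurd hm (S.noinv e trivial m (h3 ▸ h1))
    have h4 : Btw (e • m) (e • z) m := by
      have := h2.smul e
      rwa [hm] at this
    have h5 : e • e • z = z := by
      have h6 : (e * e) • m = m := by rw [mul_smul, hm]
      have h7 : (e * e) • e • m = e • m := by rw [mul_smul, hm]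
      have := S.fix_btw h6 h7 h2
      rwa [mul_smul] at this
    have h8 : dist (e • z) (e • m) = 1 := by rw [dist_smul, dist_comm, h1]
    obtain ⟨k, hk⟩ := IsSimp.int z (e • z)
    refine ih k ?_ z hk h5
    obtain ⟨j, hj⟩ := IsSimp.int z (e • m)
    have hj0 : j ≠ 0 := by
      rintro rfl
      exact h3 (dist_eq_zero.1 (hj.trans Nat.cast_zero))
    have hj1 : (1 : ℝ) ≤ j := by exact_mod_cast Nat.one_le_iff_ne_zero.2 hj0
    have h9 : Btw (e • m) (e • z) z := h4.of_dist_le h2.symm (by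
      rw [dist_comm, h8, dist_comm, hj]; exact hj1)
    unfold Q2T1.Btw at h2 h9
    rw [dist_comm (e • m) (e • z), h8, dist_comm (e • z) z, hk, dist_comm (e • m) z] at h9
    rw [h1, hd] at h2
    have : (k : ℝ) < n := by linarith
    exact_mod_cast this

theorem dich (e : S.E) : Ell S.X e ∨ Hyp S.X e := by
  have := S.ne
  rcases trichotomy (X := S.X) e with h | h | ⟨m, -, hm⟩
  · exact Or.inl h
  · exact Or.inr h
  · obtain ⟨n, hn⟩ := IsSimp.int m (e • m)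
    exact Or.inl (ell_of_sq S e n m hn hm)

theorem zpow_inv {C : Set S.X} {e : S.E} (h : ∀ x, e • x ∈ C ↔ x ∈ C) (n : ℤ) :
    ∀ x ∈ C, e ^ n • x ∈ C := by
  induction n using Int.induction_on with
  | zero => intro x hx; rwa [zpow_zero, one_smul]
  | succ n ih => intro x hx; rw [zpow_add_one, mul_smul]; exact ih _ ((h x).2 hx)
  | pred n ih =>
    intro x hx
    rw [zpow_sub_one, mul_smul]
    exact ih _ ((h _).1 (by rwa [smul_inv_smul]))

theorem fix_comm {e e' : S.E} (h : Commute e e') (x : S.X) : e' • e • x = e • x ↔ e' • x = x := by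
  rw [← mul_smul, ← h.eq, mul_smul, smul_left_cancel_iff]

/-- The elements fixed by a hyperbolic automorphism commute. -/
theorem comm_of_hyp {s : S.E} (hs : Hyp S.X s) {a b : F} (ha : (s : MulAut F) a = a)
    (hb : (s : MulAut F) b = b) : Commute a b := by
  classical
  obtain ⟨x, hx⟩ := Ch_nonempty (Or.inr hs)
  have hyp : ∀ u, (s : MulAut F) u = u → u ≠ 1 → Hyp S.X (S.ι u) := fun u hu h1 => by
    refine (dich S _).resolve_left fun ⟨y, hy⟩ => hs.smul_ne y ?_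
    exact S.cent_fix h1 hu hy
  have mem : ∀ u, (s : MulAut F) u = u → S.ι u • x ∈ Ch S.X s := fun u hu =>
    (smul_mem_Ch_of_commute (S.commute_of_fix hu).symm).2 hx
  have sub : ∀ u, (s : MulAut F) u = u → u ≠ 1 → Ch S.X s ⊆ Ch S.X (S.ι u) := fun u hu h1 =>
    hs.Ch_subset (conv_Ch _) (Ch_nonempty (Or.inr (hyp u hu h1)))
      (zpow_inv S fun y => smul_mem_Ch_of_commute (S.commute_of_fix hu))
  by_cases ha1 : a = 1
  · rw [ha1]
    exact Commute.one_left _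
  have ex : ∃ n : ℕ, ∃ u, (s : MulAut F) u = u ∧ u ≠ 1 ∧ dist x (S.ι u • x) = n := by
    obtain ⟨n, hn⟩ := IsSimp.int x (S.ι a • x)
    exact ⟨n, a, ha, ha1, hn⟩
  obtain ⟨u₀, h1, h2, h3⟩ := Nat.find_spec ex
  have key : ∀ u, (s : MulAut F) u = u → ∃ n : ℤ, u = u₀ ^ n := fun u hu => by
    obtain ⟨n, hn⟩ := (hyp u₀ h1 h2).cover (sub u₀ h1 h2 hx) (sub u₀ h1 h2 (mem u hu))
    have h4 := hn.smul (S.ι u₀ ^ n)⁻¹
    rw [inv_smul_smul, zpow_add_one, mul_smul, inv_smul_smul, ← mul_smul, ← map_zpow, ← map_inv,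
      ← map_mul] at h4
    have h5 : (s : MulAut F) ((u₀ ^ n)⁻¹ * u) = (u₀ ^ n)⁻¹ * u := by
      rw [map_mul, map_inv, map_zpow, h1, hu]
    by_cases h6 : (u₀ ^ n)⁻¹ * u = 1
    · exact ⟨n, (inv_mul_eq_one.1 h6).symm⟩
    obtain ⟨k, hk⟩ := IsSimp.int x (S.ι ((u₀ ^ n)⁻¹ * u) • x)
    have h7 : (Nat.find ex : ℝ) ≤ k := by exact_mod_cast Nat.find_min' ex ⟨_, h5, h6, hk⟩
    have h8 : S.ι ((u₀ ^ n)⁻¹ * u) • x = S.ι u₀ • x :=
      h4.eq_of_dist (btw_right _ _) (le_antisymm h4.dist_le_left (by rw [h3, hk]; exact h7))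
    have h9 : u₀⁻¹ * ((u₀ ^ n)⁻¹ * u) = 1 := by
      by_contra h9
      refine (hyp _ (by rw [map_mul, map_inv, h1, h5]) h9).smul_ne x ?_
      rw [map_mul, mul_smul, h8, map_inv, inv_smul_smul]
    refine ⟨n + 1, ?_⟩
    rw [zpow_add_one]
    exact inv_mul_eq_iff_eq_mul.1 (inv_mul_eq_one.1 h9).symm
  obtain ⟨i, rfl⟩ := key a ha
  obtain ⟨j, rfl⟩ := key b hb
  exact Commute.zpow_zpow_self u₀ i j

variable {S} {T : A → Out F} {K : Subgroup A}

/-- The section of an admissible germ as a family of elements of the acting group. -/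
structure Sec (Z : TS S T K) (f : A → F) where
  /-- the domain -/
  H : Subgroup A
  /-- the section -/
  s : A → S.E
  dp : Dp K H
  le : H ≤ Z.H
  na : NAG K f
  hom : ∀ a ∈ H, ∀ b ∈ H, f (a * b) = f a * f b
  coe : ∀ k ∈ H, (s k : MulAut F) = sg T K f k
  lift : ∀ k ∈ H, mkOut F (s k) = T k
  cen : ∀ k ∈ H, ∀ b ∈ H, (s k : MulAut F) (f b) = f b

variable [IsFreeGroup F] {Z : TS S T K} {f f' : A → F}

theorem ex_sec (Z : TS S T K) (h : Pre T K f) : Nonempty (Sec Z f) := by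
  classical
  obtain ⟨H, h1, h2⟩ := h.1
  obtain ⟨G, g1, g2⟩ := h.spec.and Z.dp.ev
  obtain ⟨v⟩ := S.ne
  have hm : ∀ k ∈ G, sg T K f k ∈ S.E := fun k hk =>
    S.mem_of_lift (Z.σ v k) ((g2 k hk).1.1.trans (Z.lift v k (g2 k hk).2).symm)
  have hc : ∀ k ∈ G, ((if hk : k ∈ G then ⟨sg T K f k, hm k hk⟩ else 1 : S.E) : MulAut F) =
      sg T K f k := fun k hk => by rw [dif_pos hk]
  exact ⟨⟨H ⊓ G, fun k => if hk : k ∈ G then ⟨sg T K f k, hm k hk⟩ else 1, h1.inf g1,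
    fun k hk => (g2 k hk.2).2, h.2.1, fun a ha b hb => h2 a ha.1 b hb.1, fun k hk => hc k hk.2,
    fun k hk => by rw [hc k hk.2]; exact (g2 k hk.2).1.1,
    fun k hk b hb => by rw [hc k hk.2]; exact (g2 k hk.2).1.2.all h1.1 h2 hb.1⟩⟩

namespace Sec

variable (C : Sec Z f)

/-- The section at the other end. -/
def t (k : A) : S.E := S.ι (f k) * C.s k

/-- The common fixed set. -/
def Y : Set S.X := {x | ∀ k ∈ C.H, C.s k • x = x}

omit [IsFreeGroup F] in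
theorem coe_t {k : A} (hk : k ∈ C.H) : (C.t k : MulAut F) = tg T K f k := by
  rw [t, Subgroup.coe_mul, S.coe_ι, C.coe k hk]
  rfl

omit [IsFreeGroup F] in
theorem lift_t {k : A} (hk : k ∈ C.H) : mkOut F (C.t k) = T k := by
  rw [t, Subgroup.coe_mul, map_mul, S.mkOut_ι, one_mul, C.lift k hk]

include C in
omit [IsFreeGroup F] in
theorem alt : (∃ v : S.X, ∀ᶠ b in deep K, S.ι (f b) • v = v) ∨
    ∀ G, Dp K G → ∃ b ∈ G, Hyp S.X (S.ι (f b)) := by
  refine or_iff_not_imp_right.2 fun hn => ?_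
  push Not at hn
  obtain ⟨G, g1, g2⟩ := hn
  obtain ⟨a, ha, ha1⟩ := C.na.ex_ne (g1.inf C.dp).ev
  obtain ⟨v, hv⟩ := (dich S _).resolve_right (g2 a ha.1)
  refine ⟨v, (g1.inf C.dp).ev.mono fun b hb => ?_⟩
  obtain ⟨x, h1, h2⟩ := ex_common_fix ⟨v, hv⟩ ((dich S _).resolve_right (g2 b hb.1)) (by
    rw [← map_mul, ← C.hom a ha.2 b hb.2]
    exact g2 _ (G.mul_mem ha.1 hb.1))
  rw [S.fix_unique ha1 hv h1]
  exact h2

theorem s_eq {v : S.X} (hv : ∀ᶠ b in deep K, S.ι (f b) • v = v) {k : A} (hk : k ∈ C.H) :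
    C.s k = Z.σ v k :=
  Subtype.ext (lift_unique C.na ((C.lift k hk).trans (Z.lift v k (C.le hk)).symm)
    (C.dp.ev.mono fun b hb => C.cen k hk b hb) (hv.mono fun _ hb => Z.cen v k (C.le hk) _ hb))

theorem t_fix {v : S.X} (hv : ∀ᶠ b in deep K, S.ι (f b) • v = v) :
    ∀ᶠ k in deep K, C.t k • v = v :=
  (hv.and C.dp.ev).mono fun k hk => by
    rw [t, mul_smul, C.s_eq hv hk.2, Z.fix v k (C.le hk.2), hk.1]

omit [IsFreeGroup F] in
theorem conv_Y : Conv C.Y := fun _ hx _ hy _ hz k hk => S.fix_btw (hx k hk) (hy k hk) hz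

omit [IsFreeGroup F] in
theorem ι_Y {b : A} (hb : b ∈ C.H) (x : S.X) : S.ι (f b) • x ∈ C.Y ↔ x ∈ C.Y :=
  forall₂_congr fun k hk => fix_comm S (S.commute_of_fix (C.cen k hk b hb)).symm x

omit [IsFreeGroup F] in
theorem t_Y {b : A} (hb : b ∈ C.H) {x : S.X} (hx : x ∈ C.Y) : C.t b • x = S.ι (f b) • x := by
  rw [t, mul_smul, hx b hb]

omit [IsFreeGroup F] in
theorem t_inv_Y {b : A} (hb : b ∈ C.H) {x : S.X} (hx : x ∈ C.Y) :
    (C.t b)⁻¹ • x = (S.ι (f b))⁻¹ • x := by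
  rw [inv_smul_eq_iff, C.t_Y hb ((C.ι_Y hb _).1 (by rwa [smul_inv_smul])), smul_inv_smul]

omit [IsFreeGroup F] in
theorem t_mem_Y {b : A} (hb : b ∈ C.H) (x : S.X) : C.t b • x ∈ C.Y ↔ x ∈ C.Y := by
  refine ⟨fun h => ?_, fun h => by rw [C.t_Y hb h]; exact (C.ι_Y hb x).2 h⟩
  have h1 := C.t_inv_Y hb h
  rw [inv_smul_smul] at h1
  rw [h1]
  exact (C.ι_Y hb _).1 (by rwa [smul_inv_smul])

omit [IsFreeGroup F] in
theorem Ch_Y {b : A} (hb : b ∈ C.H) (h : Hyp S.X (S.ι (f b))) : Ch S.X (S.ι (f b)) ⊆ C.Y := by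
  intro x hx k hk
  have he : Ell S.X (C.s k) := (dich S _).resolve_right fun hs => by
    obtain ⟨a, ha, a', ha', hc⟩ := C.na _ C.dp
    exact hc (comm_of_hyp S hs (C.cen k hk a ha) (C.cen k hk a' ha'))
  exact h.Ch_subset (C := {x | C.s k • x = x}) (conv_fix _) he
    (zpow_inv S fun y => fix_comm S (S.commute_of_fix (C.cen k hk b hb)).symm y) hx

omit [IsFreeGroup F] in
theorem hyp_t {b : A} (hb : b ∈ C.H) (h : Hyp S.X (S.ι (f b))) :
    Hyp S.X (C.t b) ∧ Ch S.X (C.t b) ⊆ C.Y := by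
  obtain ⟨x, hx⟩ := Ch_nonempty (Or.inr h)
  have hY := C.Ch_Y hb h hx
  have h1 : Hyp S.X (C.t b) := ⟨x, by rw [C.t_Y hb hY]; exact h.smul_ne x, by
    rw [C.t_Y hb hY, C.t_inv_Y hb hY]; exact hx⟩
  exact ⟨h1, h1.Ch_subset C.conv_Y ⟨x, hY⟩ (zpow_inv S (C.t_mem_Y hb))⟩

omit [IsFreeGroup F] in
theorem comm_u {b : A} (hb : b ∈ C.H) (h : Hyp S.X (S.ι (f b))) {u : F}
    (hu : tg T K f b u = u) : Commute u (f b) := by
  obtain ⟨h1, h2⟩ := C.hyp_t hb h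
  have hc : Commute (C.t b) (S.ι u) := S.commute_of_fix (by rw [C.coe_t hb]; exact hu)
  have key : ∀ x ∈ Ch S.X (C.t b), S.ι ((u * f b)⁻¹ * (f b * u)) • x = x := fun x hx => by
    have h3 : S.ι u • x ∈ Ch S.X (C.t b) := (smul_mem_Ch_of_commute hc.symm).2 hx
    rw [map_mul, map_inv, mul_smul, inv_smul_eq_iff, map_mul, map_mul, mul_smul, mul_smul,
      ← C.t_Y hb (h2 h3), ← C.t_Y hb (h2 hx), ← mul_smul, ← mul_smul, hc.eq]
  obtain ⟨x, hx⟩ := Ch_nonempty (Or.inr h1)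
  by_contra hn
  refine h1.smul_ne x (S.fix_unique (fun e => hn (inv_mul_eq_one.1 e)) ?_ (key x hx))
  exact key _ (smul_mem_Ch.2 hx)

theorem port {v v' : S.X} (hv : ∀ᶠ b in deep K, S.ι (f b) • v = v) (hne : v ≠ v')
    (hv' : ∀ᶠ k in deep K, C.t k • v' = v') :
    ∃ v w : S.X, dist v w = 1 ∧ NAG K (Z.f v w) ∧ f =ᶠ[deep K] Z.f v w := by
  obtain ⟨w, h1, h2⟩ := IsSimp.geo v v' hne
  have e : f =ᶠ[deep K] Z.f v w := (((C.t_fix hv).and hv').and C.dp.ev).mono fun k hk => by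
    have h3 := Z.eq_τ h1 (C.le hk.2) (C.lift_t hk.2) hk.1.1 (S.fix_btw hk.1.1 hk.1.2 h2)
    rw [t, TS.τ, C.s_eq hv hk.2] at h3
    refine C.na.conj_inj ?_
    rw [← S.coe_ι, ← S.coe_ι, mul_right_cancel h3]
  exact ⟨v, w, h1, C.na.congr e, e⟩

omit [IsFreeGroup F] in
theorem t_eq (C' : Sec Z f') (e : tg T K f =ᶠ[deep K] tg T K f') :
    ∀ᶠ k in deep K, C.t k = C'.t k :=
  ((e.and C.dp.ev).and C'.dp.ev).mono fun k hk =>
    Subtype.ext (by rw [C.coe_t hk.1.2, C'.coe_t hk.2]; exact hk.1.1)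

theorem eq_of_s (C' : Sec Z f') (e : tg T K f =ᶠ[deep K] tg T K f')
    (h : ∀ k ∈ C.H, k ∈ C'.H → C.s k = C'.s k) : f =ᶠ[deep K] f' :=
  eq_of_sg_tg C.na ((C.dp.ev.and C'.dp.ev).mono fun k hk => by
    rw [← C.coe k hk.1, ← C'.coe k hk.2, h k hk.1 hk.2]) e

theorem mixed (C' : Sec Z f') (e : ∀ᶠ k in deep K, C.t k = C'.t k) {v : S.X}
    (hv : ∀ᶠ b in deep K, S.ι (f b) • v = v)
    (hh : ∀ G, Dp K G → ∃ b ∈ G, Hyp S.X (S.ι (f' b))) : False := by
  obtain ⟨G, g1, g2⟩ := (e.and (C.t_fix hv)).and C'.dp.ev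
  obtain ⟨b, hb, h⟩ := hh G g1
  exact (C'.hyp_t (g2 b hb).2 h).1.smul_ne v (by rw [← (g2 b hb).1.1]; exact (g2 b hb).1.2)

end Sec

end RSub

open RSub in
theorem rowSub : StmtSub := by
  intro A F _ _ _ S T K Z f hf
  obtain ⟨C⟩ := ex_sec Z hf.1
  rcases C.alt with ⟨v, hv⟩ | hh
  · rcases hf.2 with ⟨u, hu, h⟩ | ⟨f', h1, h2, h3⟩
    · refine C.port hv (v' := S.ι u • v) (fun e => hu (C.na.eq_one ?_)) ?_
      · refine (h.and C.dp.ev).mono fun k hk => ?_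
        have h1 := hk.1
        rw [← C.coe_t hk.2, Sec.t, C.s_eq hv hk.2, Subgroup.coe_mul, S.coe_ι, MulAut.mul_apply,
          Z.cen v k (C.le hk.2) u e.symm, MulAut.conj_apply] at h1
        exact (Commute.symm (mul_inv_eq_iff_eq_mul.1 h1))
      · refine ((h.and C.dp.ev).and (C.t_fix hv)).mono fun k hk => ?_
        rw [S.smul_ι, hk.2, C.coe_t hk.1.2, hk.1.1]
    · obtain ⟨C'⟩ := ex_sec Z h1
      have e := C.t_eq C' h3
      rcases C'.alt with ⟨v', hv'⟩ | hh'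
      · refine C.port hv (v' := v') (fun e' => h2 (C.eq_of_s C' h3 fun k hk hk' => ?_)) ?_
        · rw [C.s_eq hv hk, C'.s_eq hv' hk', e']
        · exact (e.and (C'.t_fix hv')).mono fun k hk => by rw [hk.1]; exact hk.2
      · exact (C.mixed C' e hv hh').elim
  · exfalso
    rcases hf.2 with ⟨u, hu, h⟩ | ⟨f', h1, h2, h3⟩
    · obtain ⟨G, g1, g2⟩ := h.and C.dp.ev
      obtain ⟨b, hb, hy⟩ := hh G g1
      have hb1 : f b ≠ 1 := fun e => hy.ne_one (by rw [e, map_one])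
      have c1 := C.comm_u (g2 b hb).2 hy (g2 b hb).1
      refine hb1 (C.na.eq_one (g1.ev.mono fun a ha => ?_))
      have hm : a * b * a⁻¹ ∈ G := G.mul_mem (G.mul_mem ha hb) (G.inv_mem ha)
      have e := hom_conj C.hom (g2 a ha).2 (g2 b hb).2
      have c2 := C.comm_u (g2 _ hm).2 (by
        rw [e, map_mul, map_mul, map_inv]; exact (hyp_conj _).2 hy) (g2 _ hm).1
      rw [e] at c2
      exact (Q2T4A.comm_of_conj hb1 (Q2T4A.comm_trans hu c1.symm c2)).symm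
    · obtain ⟨C'⟩ := ex_sec Z h1
      have e := C.t_eq C' h3
      rcases C'.alt with ⟨v', hv'⟩ | hh'
      · exact C'.mixed C (e.mono fun _ hk => hk.symm) hv' hh
      · obtain ⟨G, g1, g2⟩ := (e.and C.dp.ev).and C'.dp.ev
        obtain ⟨b, hb, hy⟩ := hh G g1
        obtain ⟨b', hb', hy'⟩ := hh' _ C'.dp
        obtain ⟨k1, k2⟩ := C.hyp_t (g2 b hb).1.2 hy
        have k3 : Ch S.X (C.t b) ⊆ C'.Y :=
          k1.Ch_subset C'.conv_Y ((Ch_nonempty (Or.inr hy')).mono (C'.Ch_Y hb' hy'))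
            (zpow_inv S (by rw [(g2 b hb).1.1]; exact C'.t_mem_Y (g2 b hb).2))
        obtain ⟨x, hx⟩ := Ch_nonempty (Or.inr k1)
        have hx' := smul_mem_Ch.2 hx
        refine h2 (C.eq_of_s C' h3 fun k hk hk' => ?_)
        exact S.eq_of_two ((C.lift k hk).trans (C'.lift k hk').symm) (k1.smul_ne x)
          ((k2 hx' k hk).trans (k3 hx' k hk').symm) ((k2 hx k hk).trans (k3 hx k hk').symm)

end Pool.Agent.MP_3ce0a0_al.Q2T13
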