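import Pool.Agent.MP_3ce0a0_al.Q2T13.Spec

/-! Row Sup: the ports of a tree are ports. -/

set_option autoImplicit false

open Filter

namespace Pool.Agent.MP_3ce0a0_al.Q2T13

open H79 Q2T1 Q2T15

namespace RSup

variable {A F : Type} [Group A] [Group F] {S : FTree F} {T : A → Out F} {K : Subgroup A}
  (Z : TS S T K)

/-- An edge at distance `n` with the same section. -/
def Ray (v w : S.X) (n : ℕ) (x y : S.X) : Prop :=
  dist x y = 1 ∧ dist v x = n ∧ dist v y = n + 1 ∧ ∀ k ∈ Z.H, Z.τ x y k = Z.τ v w k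

theorem step [IsFreeGroup F] {v w : S.X} (h : dist v w = 1) (hn : NAG K (Z.f v w))
    (n1 : ∀ u : F, (∀ k ∈ Z.H, (Z.τ v w k : MulAut F) u = u) → u = 1)
    (n2 : ∀ f', Pre T K f' → tg T K (Z.f v w) =ᶠ[deep K] tg T K f' → Z.f v w =ᶠ[deep K] f')
    {n : ℕ} {x y : S.X} (r : Ray Z v w n x y) : ∃ z, Ray Z v w (n + 1) y z := by
  obtain ⟨r1, r2, r3, r4⟩ := r
  have r1' : dist y x = 1 := by rw [dist_comm, r1]
  rcases Z.alt y x r1' with tr | na
  · have e : ∀ k ∈ Z.H, Z.τ v w k = Z.σ y k := fun k hk => by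
      rw [← r4 k hk, ← Z.τ_symm r1 hk, TS.τ, tr k hk, map_one, one_mul]
    have st : ∀ g : F, S.ι g • y = y → g = 1 := fun g hg =>
      n1 g fun k hk => by rw [e k hk, Z.cen y k hk g hg]
    obtain ⟨z, hz, hyz⟩ := S.leaf y x r1' st
    refine ⟨z, hyz, by rw [r3]; push_cast; rfl, ?_, fun k hk => ?_⟩
    · rcases S.adj_or hyz v with b | b
      · have b' : Btw y x v := by
          unfold Q2T1.Btw
          rw [r1', dist_comm x, dist_comm y, r2, r3, add_comm]
        exact absurd (b.eq_of_dist b' (hyz.trans r1'.symm)) hz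
      · unfold Q2T1.Btw at b
        rw [dist_comm v, ← b, dist_comm z, dist_comm y v, hyz, r3]
        push_cast
        ring
    · rw [e k hk, TS.τ, st _ (Z.ffix y z hyz k hk), map_one, one_mul]
  · have e := n2 _ (Z.pre r1' na) (Z.dp.ev.mono fun k hk => by
      rw [Z.tg_eq h hn hk, Z.tg_eq r1' na hk, Z.τ_symm r1 hk, r4 k hk])
    obtain ⟨a, ⟨ha, e'⟩, h1⟩ := hn.ex_ne (Z.dp.ev.and e)
    have := S.fix_unique h1 (Z.ffix v w h a ha) (by rw [e']; exact Z.ffix y x r1' a ha)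
    rw [← this, dist_self] at r3
    exact absurd r3.symm (by positivity)

theorem fin {v w : S.X} (n1 : ∀ u : F, (∀ k ∈ Z.H, (Z.τ v w k : MulAut F) u = u) → u = 1)
    (h : ∀ n, ∃ x y, Ray Z v w n x y) : False := by
  choose x y r using h
  obtain ⟨s, hs, hg⟩ := S.fin
  choose g hg using fun n => hg (x n) (y n) (r n).1
  obtain ⟨m, n, hmn, e⟩ := hs.exists_lt_map_eq_of_forall_mem hg
  obtain ⟨e1, e2⟩ := Prod.mk.inj e
  have a : ∀ {p q : S.X}, S.ι (g m) • p = S.ι (g n) • q → S.ι ((g m)⁻¹ * g n) • q = p :=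
    fun {p q} e => by rw [map_mul, mul_smul, ← e, map_inv, inv_smul_smul]
  have u1 : (g m)⁻¹ * g n = 1 := n1 _ fun k hk => by
    have b : ∀ {p q : S.X}, S.ι ((g m)⁻¹ * g n) • q = p → Z.τ v w k • p = p → Z.τ v w k • q = q →
        S.ι (((g m)⁻¹ * g n)⁻¹ * (Z.τ v w k : MulAut F) ((g m)⁻¹ * g n)) • q = q :=
      fun {p q} e hp hq => by
        have := S.smul_ι (Z.τ v w k) ((g m)⁻¹ * g n) q
        rw [e, hp, hq] at this
        rw [map_mul S.ι, mul_smul, ← this, map_inv S.ι, inv_smul_eq_iff, e]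
    have f1 : ∀ i, Z.τ v w k • x i = x i := fun i => by
      rw [← (r i).2.2.2 k hk]
      exact Z.τ_fix1 (r i).1 hk
    have f2 : ∀ i, Z.τ v w k • y i = y i := fun i => by
      rw [← (r i).2.2.2 k hk]
      exact Z.τ_fix2 (r i).1 hk
    exact (inv_mul_eq_one.1 (S.edge _ _ _ (r n).1 (b (a e1) (f1 m) (f1 n))
      (b (a e2) (f2 m) (f2 n)))).symm
  have := a e1
  rw [u1, map_one, one_smul] at this
  have d := (r n).2.1
  rw [this, (r m).2.1] at d
  exact hmn.ne (by exact_mod_cast d)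

end RSup

open RSup in
theorem rowSup : StmtSup := by
  intro A F _ _ _ S T K Z v w h hn
  refine ⟨Z.pre h hn, by_contra fun H => ?_⟩
  rw [not_or] at H
  have n1 : ∀ u : F, (∀ k ∈ Z.H, (Z.τ v w k : MulAut F) u = u) → u = 1 := fun u hu =>
    by_contra fun u1 => H.1 ⟨u, u1, Z.dp.ev.mono fun k hk => by rw [Z.tg_eq h hn hk, hu k hk]⟩
  refine fin Z n1 fun n => ?_
  induction n with
  | zero => exact ⟨v, w, h, by simp, by simp [h], fun _ _ => rfl⟩
  | succ n ih =>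
    obtain ⟨x, y, r⟩ := ih
    exact ⟨y, step Z h hn n1 (fun f' p e => by_contra fun ne => H.2 ⟨f', p, ne, e⟩) r⟩

end Pool.Agent.MP_3ce0a0_al.Q2T13
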