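import Pool.Agent.MP_3ce0a0_al.Q2T13.Spec

/-! The graph of sections is a tree. -/

set_option autoImplicit false

open Filter

namespace Pool.Agent.MP_3ce0a0_al.Q2T13

open H79 Q2T1 Q2T15

namespace RTree

variable {A F : Type} [Group A] [Group F] [IsFreeGroup F] {S : FTree F} {T : A → Out F}
  {K : Subgroup A} (Z : TS S T K)

theorem sg_ev {v w : S.X} (h : dist v w = 1) (hn : NAG K (Z.f v w)) {f : A → F}
    (e : f =ᶠ[deep K] Z.f v w) : sg T K f =ᶠ[deep K] fun k => (Z.σ v k : MulAut F) := by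
  rw [sg_congr e]
  exact Z.dp.ev.mono fun k hk => Z.sg_eq h hn hk

theorem tg_ev {v w : S.X} (h : dist v w = 1) (hn : NAG K (Z.f v w)) {f : A → F}
    (e : f =ᶠ[deep K] Z.f v w) : tg T K f =ᶠ[deep K] fun k => (Z.τ v w k : MulAut F) :=
  (tg_congr e).trans (Z.dp.ev.mono fun _ hk => Z.tg_eq h hn hk)

omit [IsFreeGroup F] in
theorem step_symm {ok : (A → F) → Prop} {s s' : A → MulAut F} (h : StepG T K ok s s') :
    StepG T K ok s' s := by
  rcases h with h | ⟨f, h1, h2, h3⟩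
  · exact Or.inl h.symm
  · exact Or.inr ⟨f, h1, h2, h3.symm.imp And.symm And.symm⟩

theorem half (sup : StmtSup) {x y : S.X} (h : dist x y = 1) :
    Relation.ReflTransGen (StepG T K fun _ => True) (fun k => (Z.σ x k : MulAut F))
      (fun k => (Z.τ x y k : MulAut F)) := by
  rcases Z.alt x y h with h1 | h1
  · refine .single (Or.inl (Z.dp.ev.mono fun k hk => ?_))
    change _ = (Z.τ x y k : MulAut F)
    rw [Z.coe_τ, h1 k hk, map_one, one_mul]
  · refine .head (Or.inl (sg_ev Z h h1 .rfl).symm) (.tail ?_ (Or.inl (tg_ev Z h h1 .rfl)))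
    exact .single (Or.inr ⟨_, sup A F S T K Z x y h h1, trivial, Or.inl ⟨rfl, rfl⟩⟩)

omit [IsFreeGroup F] in
theorem rtg_symm {ok : (A → F) → Prop} {s s' : A → MulAut F}
    (h : Relation.ReflTransGen (StepG T K ok) s s') :
    Relation.ReflTransGen (StepG T K ok) s' s := by
  induction h with
  | refl => exact .refl
  | tail _ h ih => exact .head (step_symm h) ih

theorem conn (sup : StmtSup) (v w : S.X) :
    Relation.ReflTransGen (StepG T K fun _ => True) (fun k => (Z.σ v k : MulAut F))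
      (fun k => (Z.σ w k : MulAut F)) := by
  refine S.path_ind (P := fun x => Relation.ReflTransGen (StepG T K fun _ => True)
    (fun k => (Z.σ v k : MulAut F)) (fun k => (Z.σ x k : MulAut F))) .refl (fun x y h hx => ?_) w
  refine ((hx.trans (half Z sup h)).tail (Or.inl (Z.dp.ev.mono fun k hk => ?_))).trans
    (rtg_symm (half Z sup (by rw [dist_comm, h])))
  change (Z.τ x y k : MulAut F) = Z.τ y x k
  rw [Z.τ_symm h hk]

/-- The vertices beyond a half-edge at `v₀` with germ `φ`. -/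
def Up (v₀ : S.X) (φ : A → F) (x : S.X) : Prop :=
  ∃ w₁, dist v₀ w₁ = 1 ∧ Z.f v₀ w₁ =ᶠ[deep K] φ ∧ Q2T1.Btw v₀ w₁ x

/-- The sections that fix such a vertex. -/
def Side (v₀ : S.X) (φ : A → F) (s : A → MulAut F) : Prop :=
  ∃ x, Up Z v₀ φ x ∧ ∀ᶠ k in deep K, ∃ e : S.E, (e : MulAut F) = s k ∧ e • x = x

variable {Z} {v₀ : S.X} {φ : A → F}

omit [IsFreeGroup F] in
theorem Side.congr {s s' : A → MulAut F} (h : Side Z v₀ φ s) (e : s =ᶠ[deep K] s') :
    Side Z v₀ φ s' := by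
  obtain ⟨x, h1, h2⟩ := h
  exact ⟨x, h1, (h2.and e).mono fun k ⟨⟨a, h3, h4⟩, h5⟩ => ⟨a, h3.trans h5, h4⟩⟩

omit [IsFreeGroup F] in
theorem side_of {v : S.X} (h : Up Z v₀ φ v) {t : A → S.E} (ht : ∀ k ∈ Z.H, t k • v = v) :
    Side Z v₀ φ fun k => (t k : MulAut F) :=
  ⟨v, h, Z.dp.ev.mono fun k hk => ⟨t k, rfl, ht k hk⟩⟩

theorem main (hn : NAG K φ) {v : S.X} (h : ¬ Up Z v₀ φ v) {t : A → S.E}
    (hl : ∀ k ∈ Z.H, mkOut F (t k) = T k) (ht : ∀ k ∈ Z.H, t k • v = v)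
    (hs : Side Z v₀ φ fun k => (t k : MulAut F)) :
    v = v₀ ∧ ∀ᶠ k in deep K, (t k : MulAut F) = MulAut.conj (φ k) * (Z.σ v₀ k : MulAut F) := by
  obtain ⟨x, ⟨w₁, a1, a2, a3⟩, h2⟩ := hs
  have b1 : Q2T1.Btw w₁ v₀ v := (S.adj_or a1 v).resolve_left fun k => h ⟨w₁, a1, a2, k⟩
  have ne := (S.ne_of_adj a1).symm
  have h3 : ∀ᶠ k in deep K, k ∈ Z.H ∧ t k • v₀ = v₀ ∧
      (t k : MulAut F) = MulAut.conj (φ k) * (Z.σ v₀ k : MulAut F) := by
    filter_upwards [h2, Z.dp.ev, a2] with k ⟨e, e1, e2⟩ hk e3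
    rw [Subtype.ext e1] at e2
    have c1 := S.fix_btw e2 (ht k hk) (a3.symm.concat_left b1 ne)
    have c2 := S.fix_btw e2 (ht k hk) (a3.symm.concat_right b1 ne)
    exact ⟨hk, c2, by rw [Z.eq_τ a1 hk (hl k hk) c2 c1, Z.coe_τ, e3]⟩
  refine ⟨by_contra fun hv => ?_, h3.mono fun k hk => hk.2.2⟩
  obtain ⟨w₂, c1, c2⟩ := IsSimp.geo v₀ v (Ne.symm hv)
  refine h ⟨w₂, c1, h3.mono fun k ⟨hk, d1, d2⟩ => ?_, c2⟩
  rw [Z.eq_τ c1 hk (hl k hk) d1 (S.fix_btw d1 (ht k hk) c2), Z.coe_τ] at d2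
  exact hn.conj_inj (mul_right_cancel d2)

theorem not_σ (hn : NAG K φ) {v : S.X} (h : ¬ Up Z v₀ φ v) :
    ¬ Side Z v₀ φ fun k => (Z.σ v k : MulAut F) := fun hs => by
  obtain ⟨rfl, h1⟩ := main hn h (Z.lift v) (Z.fix v) hs
  refine hn.not_triv (h1.mono fun k hk => hn.conj_inj ?_)
  rw [map_one]
  exact mul_eq_right.mp hk.symm

theorem not_τ (hn : NAG K φ) {v w : S.X} (hd : dist v w = 1) (h : ¬ Up Z v₀ φ v)
    (hf : ¬ Z.f v w =ᶠ[deep K] φ) : ¬ Side Z v₀ φ fun k => (Z.τ v w k : MulAut F) := fun hs => by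
  obtain ⟨rfl, h1⟩ := main hn h (fun _ => Z.τ_lift v w) (fun _ => Z.τ_fix1 hd) hs
  refine hf (h1.mono fun k hk => hn.conj_inj ?_)
  rw [Z.coe_τ] at hk
  exact mul_right_cancel hk

theorem port (sub : StmtSub) (hn : NAG K φ) {f : A → F} (hf : f ∈ PhiG T K)
    (ok : ¬ f =ᶠ[deep K] φ) : Side Z v₀ φ (sg T K f) ↔ Side Z v₀ φ (tg T K f) := by
  obtain ⟨v, w, h1, h2, h3⟩ := sub A F S T K Z f hf
  have e1 := sg_ev Z h1 h2 h3
  have e2 := tg_ev Z h1 h2 h3
  by_cases hu : Up Z v₀ φ v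
  · exact iff_of_true ((side_of hu (Z.fix v)).congr e1.symm)
      ((side_of hu fun _ => Z.τ_fix1 h1).congr e2.symm)
  · exact iff_of_false (fun k => not_σ hn hu (k.congr e1))
      fun k => not_τ hn h1 hu (fun k' => ok (h3.trans k')) (k.congr e2)

end RTree

theorem rowTree (sup : StmtSup) (sub : StmtSub) : StmtTree := by
  intro A F _ _ _ S T K Z
  refine ⟨fun f hf f' hf' => ?_, fun f hf h => ?_⟩
  · obtain ⟨v, w, h1, h2, h3⟩ := sub A F S T K Z f hf
    obtain ⟨v', w', k1, k2, k3⟩ := sub A F S T K Z f' hf'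
    exact .head (Or.inl (RTree.sg_ev Z h1 h2 h3))
      (.tail (RTree.conn Z sup v v') (Or.inl (RTree.sg_ev Z k1 k2 k3).symm))
  · obtain ⟨v, w, h1, h2, h3⟩ := sub A F S T K Z f hf
    have key : ∀ s, Relation.ReflTransGen (StepG T K fun f' => ¬ f' =ᶠ[deep K] f) (sg T K f) s →
        ¬ RTree.Side Z v (Z.f v w) s := by
      intro s hs
      induction hs with
      | refl =>
        refine fun k => RTree.not_σ h2 ?_ (k.congr (RTree.sg_ev Z h1 h2 h3))
        rintro ⟨w₁, a1, -, a3⟩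
        exact S.ne_of_adj a1 a3.eq_of_self.symm
      | tail _ hb ih =>
        rcases hb with hb | ⟨g, g1, g2, hb⟩
        · exact fun k => ih (k.congr hb.symm)
        · have := RTree.port (Z := Z) (v₀ := v) sub h2 g1 fun k => g2 (k.trans h3.symm)
          rcases hb with ⟨rfl, rfl⟩ | ⟨rfl, rfl⟩
          · exact fun k => ih (this.mpr k)
          · exact fun k => ih (this.mp k)
    exact key _ h ((RTree.side_of ⟨w, h1, .rfl, btw_right _ _⟩ fun _ => Z.τ_fix2 h1).congr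
      (RTree.tg_ev Z h1 h2 h3).symm)

end Pool.Agent.MP_3ce0a0_al.Q2T13
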