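import Pool.Agent.MP_3ce0a0_al.Q2T13.RNat
import Pool.Agent.MP_3ce0a0_al.Q2T13.RSup
import Pool.Agent.MP_3ce0a0_al.Q2T13.RSub
import Pool.Agent.MP_3ce0a0_al.Q2T13.RFin
import Pool.Agent.MP_3ce0a0_al.Q2T13.RTree
import Pool.Agent.MP_3ce0a0_al.Q2T13.RPull
import Pool.Agent.MP_3ce0a0_al.Q2T13.RInst
import Pool.Agent.MP_3ce0a0_al.Q2T13.RPA
import Pool.Agent.MP_3ce0a0_al.Q2T13.RPB
import Pool.Agent.MP_3ce0a0_al.Q2T13.RPC
import Pool.Agent.MP_3ce0a0_al.Q2T13.RPD0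
import Pool.Agent.MP_3ce0a0_al.Q2T13.RPD
import Pool.Agent.MP_3ce0a0_al.Q2T13.RPE
import Pool.Agent.MP_3ce0a0_al.Q2T13.RAd

/-! Assembly of the block on ports and sections. -/

set_option autoImplicit false

open Filter

namespace Pool.Agent.MP_3ce0a0_al.Q2T13

open H79 Q2T1 Q2T15

theorem ports_of {α F : Type} [Fintype α] [Group F] (ρ : Out (FreeGroup α) →* Out F)
    (hα : 11 ≤ Fintype.card α) (a : PA ρ) (b : PB ρ) (c : PC ρ) (d : PD ρ) (e : PE ρ) :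
    Ports ρ := by
  have ex : ∀ I : Finset α, Sz I → ∃ h : α × Bool, h.1 ∉ I := fun I hI => by
    obtain ⟨x, hx⟩ := ex_not_mem (I := I) (by have := hI.2; omega)
    exact ⟨(x, false), hx⟩
  refine ⟨b, fun _ _ hf _ h => phi_congr hf h, fun I hI => ?_, fun I hI => ?_, c.conj,
    fun I hI => ?_, fun I J hI hJ hJI => ?_, fun I J hI hJ hJI => ?_, d, c.p4, c.p5, e.cen, e.conn,
    e.bridge⟩
  · obtain ⟨h, hh⟩ := ex I hI
    rw [b I hI h hh]
    exact a.ne I hI h hh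
  · obtain ⟨h, hh⟩ := ex I hI
    rw [b I hI h hh]
    exact a.hom I hI h hh
  · obtain ⟨h, hh⟩ := ex I hI
    rw [b I hI h hh]
    exact a.fin I hI h hh
  · obtain ⟨h, hh⟩ := ex I hI
    rw [b I hI h hh, b J hJ h fun e => hh (hJI e)]
    exact a.res I J hI hJ hJI h hh
  · obtain ⟨h, hh⟩ := ex I hI
    rw [b I hI h hh, b J hJ h fun e => hh (hJI e)]
    exact a.onto I J hI hJ hJI h hh

theorem ports {α F : Type} [Fintype α] [Group F] [IsFreeGroup F]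
    (ρ : Out (FreeGroup α) →* Out F) (h : Std ρ) : Ports ρ := by
  classical
  have inst := rowInst (rowPull rowSup rowSub)
  have a := rowPA rowSup rowSub rowFin inst α F ρ h
  have b := rowPB rowNat inst α F ρ h a
  have c := rowPC rowNat α F ρ h b
  exact ports_of ρ h.card a b c (rowPD α F ρ h a b (rowPD0 α F ρ h a b c))
    (rowPE (rowTree rowSup rowSub) inst α F ρ h b)

theorem t13 : StmtT13 := fun α F _ _ _ ρ h1 h2 h3 =>
  ⟨_, rowAd α F ρ (ports ρ ⟨h1, h2, h3⟩)⟩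

end Pool.Agent.MP_3ce0a0_al.Q2T13
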