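import Pool.Agent.MP_3ce0a0_al.Q2T13.KKb
import Pool.Agent.MP_3ce0a0_al.Q2T14.Defs

/-! The rows of the block on ports and sections. -/

set_option autoImplicit false

open Filter

namespace Pool.Agent.MP_3ce0a0_al.Q2T13

open H79 Q2T1 Q2T15

/-- Row Nat: ports are natural. -/
def StmtNat : Prop := ∀ (A F : Type) [Group A] [Group F] [IsFreeGroup F] (T T' : A → Out F)
  (K K' : Subgroup A) (ψ : MulAut A) (a : MulAut F), (∀ w, ψ w ∈ K' ↔ w ∈ K) →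
    (∀ᶠ k in deep K, T' (ψ k) = mkOut F a * T k * (mkOut F a)⁻¹) →
      ∀ f ∈ PhiG T K, (fun b => a (f (ψ⁻¹ b))) ∈ PhiG T' K'

/-- Row Sup: the ports of a tree are ports. -/
def StmtSup : Prop := ∀ (A F : Type) [Group A] [Group F] [IsFreeGroup F] (S : FTree F)
  (T : A → Out F) (K : Subgroup A) (Z : TS S T K) (v w : S.X), dist v w = 1 →
    NAG K (Z.f v w) → Z.f v w ∈ PhiG T K

/-- Row Sub: every port is seen in the tree. -/
def StmtSub : Prop := ∀ (A F : Type) [Group A] [Group F] [IsFreeGroup F] (S : FTree F)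
  (T : A → Out F) (K : Subgroup A) (Z : TS S T K), ∀ f ∈ PhiG T K,
    ∃ v w : S.X, dist v w = 1 ∧ NAG K (Z.f v w) ∧ f =ᶠ[deep K] Z.f v w

/-- Row Fin: finitely many orbits, and there are ports unless the action is trivial. -/
def StmtFin : Prop := ∀ (A F : Type) [Group A] [Group F] [IsFreeGroup F] (S : FTree F)
  (T : A → Out F) (K : Subgroup A) (Z : TS S T K),
    (∃ s : Set (A → F), s.Finite ∧ ∀ v w : S.X, dist v w = 1 → NAG K (Z.f v w) →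
      ∃ f₀ ∈ s, ∃ g : F, Z.f v w =ᶠ[deep K] fun b => g * f₀ b * g⁻¹) ∧
    ((∀ v w : S.X, dist v w = 1 → ¬ NAG K (Z.f v w)) → ∀ k ∈ Z.H, T k = 1)

/-- Row Tree: the graph of sections is a tree. -/
def StmtTree : Prop := ∀ (A F : Type) [Group A] [Group F] [IsFreeGroup F] (S : FTree F)
  (T : A → Out F) (K : Subgroup A), TS S T K →
    (∀ f ∈ PhiG T K, ∀ f' ∈ PhiG T K,
      Relation.ReflTransGen (StepG T K fun _ => True) (sg T K f) (sg T K f')) ∧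
    ∀ f ∈ PhiG T K,
      ¬ Relation.ReflTransGen (StepG T K fun f' => ¬ f' =ᶠ[deep K] f) (sg T K f) (tg T K f)

/-- Row Pull: restriction of a free twist group along a homomorphism. -/
def StmtPull : Prop := ∀ (α F A : Type) [Group F] [IsFreeGroup F] [Group A]
  (ρ : Out (FreeGroup α) →* Out F) (L I : Finset α) (Y : FT ρ L)
  (j : A →* (α × Bool → FreeGroup α)) (K : Subgroup A) (T : A → Out F) (act : Set (α × Bool)),
    Adm L I → (∀ k ∈ K, j k ∈ KK (sf I) L) → (∀ k ∈ K, T k = ρ (multiO (L : Set α)ᶜ (j k))) →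
    (∀ h, h ∉ act → ∀ k ∈ K, j k h = 1) → (∀ h ∈ act, NAG K fun k => j k h) →
      Nonempty (TS Y.toFTree T K) ∧ ∀ f, f ∈ PhiG T K ↔
        ∃ v w h φ, h ∈ act ∧ Y.IsPort v w h φ ∧ f =ᶠ[deep K] fun k => φ (j k h)

/-- The three instances. -/
structure Inst {α F : Type} [Group F] (ρ : Out (FreeGroup α) →* Out F) {L : Finset α}
    (Y : FT ρ L) (I : Finset α) : Prop where
  ts1 : ∀ h : α × Bool, h.1 ∈ L → Nonempty (TS Y.toFTree (T1 ρ h) (sf I))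
  one : ∀ h : α × Bool, h.1 ∈ L → ∀ f, f ∈ PhiG (T1 ρ h) (sf I) ↔
    ∃ v w φ, Y.IsPort v w h φ ∧ f =ᶠ[deep (sf I)] φ
  two : ∀ h h' : α × Bool, h.1 ∈ L → h'.1 ∈ L → h ≠ h' → ∀ f,
    f ∈ PhiG (fun b => ρ (tau h b * tau h' b)) (sf I) ↔
      f ∈ PhiG (T1 ρ h) (sf I) ∨ f ∈ PhiG (T1 ρ h') (sf I)
  tsK : ∀ L₀, L₀ ⊆ L → Nonempty (TS Y.toFTree (TK ρ I) (KK (sf I) L₀))
  all : ∀ L₀, L₀ ⊆ L → ∀ g, g ∈ PhiG (TK ρ I) (KK (sf I) L₀) ↔ ∃ h : α × Bool, h.1 ∈ L₀ ∧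
    ∃ f ∈ PhiG (T1 ρ h) (sf I), g =ᶠ[deep (KK (sf I) L₀)] fun k => f (k h)

/-- Row Inst. -/
def StmtInst : Prop := ∀ (α F : Type) [Group F] [IsFreeGroup F]
  (ρ : Out (FreeGroup α) →* Out F) (L I : Finset α) (Y : FT ρ L), Adm L I → 2 ≤ I.card →
    Inst ρ Y I

section Parts

variable {α F : Type} [Group F] (ρ : Out (FreeGroup α) →* Out F)

/-- The standing hypotheses. -/
structure Std [Fintype α] : Prop where
  inj : Function.Injective ρ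
  card : 11 ≤ Fintype.card α
  ft : ∀ L : Finset α, L.card = 4 → Nonempty (FT ρ L)

/-- The facts on one label. -/
structure PA : Prop where
  ne : ∀ I, Sz I → ∀ h : α × Bool, h.1 ∉ I → (PhiG (T1 ρ h) (sf I)).Nonempty
  hom : ∀ I, Sz I → ∀ h : α × Bool, h.1 ∉ I → ∀ f ∈ PhiG (T1 ρ h) (sf I), ∃ H, Dp (sf I) H ∧
    (∀ a ∈ H, ∀ b ∈ H, f (a * b) = f a * f b) ∧ ∀ a ∈ H, f a = 1 → a = 1
  fin : ∀ I, Sz I → ∀ h : α × Bool, h.1 ∉ I → ∃ s : Set (FreeGroup α → F), s.Finite ∧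
    ∀ f ∈ PhiG (T1 ρ h) (sf I), ∃ f₀ ∈ s, ∃ g : F, f =ᶠ[deep (sf I)] fun b => g * f₀ b * g⁻¹
  res : ∀ I J, Sz I → Sz J → J ⊆ I → ∀ h : α × Bool, h.1 ∉ I →
    PhiG (T1 ρ h) (sf I) ⊆ PhiG (T1 ρ h) (sf J)
  onto : ∀ I J, Sz I → Sz J → J ⊆ I → ∀ h : α × Bool, h.1 ∉ I → ∀ f ∈ PhiG (T1 ρ h) (sf J),
    ∃ f' ∈ PhiG (T1 ρ h) (sf I), f =ᶠ[deep (sf J)] f'

/-- The ports do not depend on the label. -/
def PB : Prop :=
  ∀ I, Sz I → ∀ h : α × Bool, h.1 ∉ I → Phi ρ I = PhiG (T1 ρ h) (sf I)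

/-- Invariance. -/
structure PC : Prop where
  conj : ∀ I, ∀ f ∈ Phi ρ I, ∀ g : F, (fun b => g * f b * g⁻¹) ∈ Phi ρ I
  p4 : ∀ I, Sz I → ∀ x, x ∉ I → ∀ γ ∈ NA ({x}ᶜ : Set α), (∀ w, γ w ∈ sf I ↔ w ∈ sf I) →
    ∀ a : MulAut F, mkOut F a = ρ (mkOut _ γ) → ∀ f ∈ Phi ρ I, (fun b => a (f (γ⁻¹ b))) ∈ Phi ρ I
  p5 : ∀ I, Sz I → ∀ w ∈ sf I, ∀ f ∈ Phi ρ I, (fun b => f (w * b * w⁻¹)) ∈ Phi ρ I

/-- Two ports that agree on three letters agree on all letters but two of the three. -/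
def PD0 [DecidableEq α] : Prop :=
  ∀ I, Sz I → ∀ a b c, a ∈ I → b ∈ I → c ∈ I → a ≠ b → a ≠ c → b ≠ c → ∀ f ∈ Phi ρ I,
    ∀ f' ∈ Phi ρ I, f =ᶠ[deep (sf {a, b, c})] f' → f =ᶠ[deep (sf ((I.erase a).erase b))] f'

/-- Restriction is injective. -/
def PD : Prop :=
  ∀ I J : Finset α, 3 ≤ J.card → I.card ≤ 5 → J ⊆ I → ∀ f ∈ Phi ρ I, ∀ f' ∈ Phi ρ I,
    f =ᶠ[deep (sf J)] f' → f =ᶠ[deep (sf I)] f'

/-- The graphs of sections. -/
structure PE : Prop where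
  cen : ∀ I L, Sz I → Disjoint I L → L.card ≤ 4 → ∀ f ∈ Phi ρ I,
    ∀ᶠ k in deep (KK (sf I) L), ∃ a, mkOut F a = TK ρ I k ∧ Fixes (sf I) f a
  conn : ∀ I L, Sz I → Disjoint I L → L.card ≤ 4 → L.Nonempty → ∀ f ∈ Phi ρ I, ∀ f' ∈ Phi ρ I,
    Relation.ReflTransGen (Step ρ I L fun _ _ => True) (nd ρ I f none) (nd ρ I f' none)
  bridge : ∀ I L, Sz I → Disjoint I L → L.card ≤ 4 → ∀ f ∈ Phi ρ I, ∀ h : α × Bool, h.1 ∈ L →
    ¬ Relation.ReflTransGen (Step ρ I L fun f' h' => ¬ (h' = h ∧ f' =ᶠ[deep (sf I)] f))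
      (nd ρ I f none) (nd ρ I f (some h))

end Parts

/-- Row PA. -/
def StmtPA : Prop := ∀ (α F : Type) [Fintype α] [Group F] [IsFreeGroup F]
  (ρ : Out (FreeGroup α) →* Out F), Std ρ → PA ρ

/-- Row PB. -/
def StmtPB : Prop := ∀ (α F : Type) [Fintype α] [Group F] [IsFreeGroup F]
  (ρ : Out (FreeGroup α) →* Out F), Std ρ → PA ρ → PB ρ

/-- Row PC. -/
def StmtPC : Prop := ∀ (α F : Type) [Fintype α] [Group F] [IsFreeGroup F]
  (ρ : Out (FreeGroup α) →* Out F), Std ρ → PB ρ → PC ρ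

/-- Row PD0. -/
def StmtPD0 : Prop := ∀ (α F : Type) [Fintype α] [DecidableEq α] [Group F] [IsFreeGroup F]
  (ρ : Out (FreeGroup α) →* Out F), Std ρ → PA ρ → PB ρ → PC ρ → PD0 ρ

/-- Row PD. -/
def StmtPD : Prop := ∀ (α F : Type) [Fintype α] [DecidableEq α] [Group F] [IsFreeGroup F]
  (ρ : Out (FreeGroup α) →* Out F), Std ρ → PA ρ → PB ρ → PD0 ρ → PD ρ

/-- Row PE. -/
def StmtPE : Prop := ∀ (α F : Type) [Fintype α] [Group F] [IsFreeGroup F]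
  (ρ : Out (FreeGroup α) →* Out F), Std ρ → PB ρ → PE ρ

/-- Row Ad: the form used by the last block. -/
def StmtAd : Prop := ∀ (α F : Type) [Fintype α] [Group F] [IsFreeGroup F]
  (ρ : Out (FreeGroup α) →* Out F), Ports ρ → Q2T14.PortSys ρ fun I f => f ∈ Phi ρ I

/-- The statement of the block. -/
def StmtT13 : Prop := ∀ (α F : Type) [Fintype α] [Group F] [IsFreeGroup F]
  (ρ : Out (FreeGroup α) →* Out F), Function.Injective ρ → 11 ≤ Fintype.card α →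
    (∀ L : Finset α, L.card = 4 → Nonempty (FT ρ L)) → ∃ P, Q2T14.PortSys ρ P

end Pool.Agent.MP_3ce0a0_al.Q2T13
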