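import Pool.Agent.MP_3ce0a0_al.Q2T13.Defs
import Pool.Agent.MP_3ce0a0_al.Q2T1.Basic
import Pool.Agent.MP_3ce0a0_al.Q2T15.Basic
import Pool.Agent.MP_3ce0a0_al.Q2T4A.Alg

/-! Basic lemmas on germs, sections and free twist groups. -/

set_option autoImplicit false

open Filter

namespace Pool.Agent.MP_3ce0a0_al.Q2T13

open H79 Q2T1 Q2T15

section Germ

variable {A A' F : Type} [Group A] [Group A'] [Group F] {K H H' : Subgroup A}

theorem ev_deep {P : A → Prop} : (∀ᶠ k in deep K, P k) ↔ ∃ H, Dp K H ∧ ∀ k ∈ H, P k := Iff.rfl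

theorem Dp.ev (h : Dp K H) : ∀ᶠ k in deep K, k ∈ H := ⟨H, h, fun _ hk => hk⟩

theorem ev_mem (K : Subgroup A) : ∀ᶠ k in deep K, k ∈ K := (Dp.refl K).ev

theorem Dp.trans (h : Dp K H) (h' : Dp H H') : Dp K H' :=
  ⟨h'.1.trans h.1, Subgroup.relIndex_ne_zero_trans h'.2 h.2⟩

theorem Dp.comap (ψ : A' →* A) (h : Dp K H) {K' : Subgroup A'} (hK : ∀ k ∈ K', ψ k ∈ K) :
    Dp K' (H.comap ψ ⊓ K') := by
  refine ⟨inf_le_right, ?_⟩
  rw [Subgroup.inf_relIndex_right, Subgroup.relIndex_comap]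
  refine fun h0 => h.2 (Subgroup.relIndex_eq_zero_of_le_right ?_ h0)
  rintro _ ⟨k, hk, rfl⟩
  exact hK k hk

theorem Dp.restrict (h : Dp K H) {K' : Subgroup A} (hK : K' ≤ K) : Dp K' (H ⊓ K') :=
  h.comap (MonoidHom.id A) hK

theorem dp_inf {D : Subgroup A} (h : D.relIndex K ≠ 0) : Dp K (K ⊓ D) :=
  ⟨inf_le_left, by rwa [inf_comm, Subgroup.inf_relIndex_right]⟩

theorem tendsto_deep (ψ : A' →* A) {K' : Subgroup A'} (hK : ∀ k ∈ K', ψ k ∈ K) :
    Tendsto ψ (deep K') (deep K) := fun _ ⟨_, h, h'⟩ =>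
  ⟨_, h.comap ψ hK, fun _ hk => h' _ hk.1⟩

theorem deep_mono {K' : Subgroup A} (hK : K' ≤ K) : deep K' ≤ deep K :=
  tendsto_deep (MonoidHom.id A) hK

theorem Dp.deep_eq (h : Dp K H) : deep H = deep K :=
  le_antisymm (deep_mono h.1) fun _ ⟨G, g, g'⟩ => ⟨G, h.trans g, g'⟩

theorem Dp.pow_mem (h : Dp K H) {k : A} (hk : k ∈ K) : ∃ n : ℕ, n ≠ 0 ∧ k ^ n ∈ H := by
  obtain ⟨n, hn, -, h'⟩ := Subgroup.exists_pow_mem_of_relIndex_ne_zero h.2 hk
  exact ⟨n, hn.ne', h'.1⟩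

/-- Deep properties hold for the multiples of some exponent. -/
theorem ev_pow {P : A → Prop} (h : ∀ᶠ k in deep K, P k) {k : A} (hk : k ∈ K) :
    ∃ n : ℕ, n ≠ 0 ∧ ∀ m : ℤ, P ((k ^ n) ^ m) := by
  obtain ⟨H, h1, h2⟩ := h
  obtain ⟨n, hn, h3⟩ := h1.pow_mem hk
  exact ⟨n, hn, fun m => h2 _ (H.zpow_mem h3 m)⟩

theorem ev_one {P : A → Prop} (h : ∀ᶠ k in deep K, P k) : P 1 := by
  obtain ⟨H, -, h2⟩ := h
  exact h2 1 H.one_mem

instance deep_neBot (K : Subgroup A) : (deep K).NeBot :=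
  ⟨fun h => by
    have : ∀ᶠ k in deep K, False := by rw [h]; exact eventually_bot
    exact ev_one this⟩

/-- A surjection of subgroups pushes deep properties forward. -/
theorem ev_of_surj (ψ : A' →* A) {K' : Subgroup A'} (hK : K'.map ψ = K) {P : A → Prop}
    (h : ∀ᶠ k in deep K', P (ψ k)) : ∀ᶠ k in deep K, P k := by
  obtain ⟨G, g, g'⟩ := h
  refine ⟨G.map ψ, ⟨hK ▸ Subgroup.map_mono g.1, ?_⟩, ?_⟩
  · rw [← hK, ← Subgroup.relIndex_comap]
    exact fun h0 => g.2 (Subgroup.relIndex_eq_zero_of_le_left (Subgroup.le_comap_map ψ G) h0)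
  · rintro _ ⟨k, hk, rfl⟩
    exact g' k hk

variable {f f' : A → F}

theorem HomG.congr (h : HomG K f) (e : f =ᶠ[deep K] f') : HomG K f' := by
  obtain ⟨H, h1, h2⟩ := h
  obtain ⟨G, g1, g2⟩ := e
  refine ⟨H ⊓ G, h1.inf g1, fun a ha b hb => ?_⟩
  have e1 : f (a * b) = f' (a * b) := g2 _ (G.mul_mem ha.2 hb.2)
  have e2 : f a = f' a := g2 _ ha.2
  have e3 : f b = f' b := g2 _ hb.2
  rw [← e1, ← e2, ← e3, h2 a ha.1 b hb.1]

theorem NAG.of_ev (h : NAG K f) {P : A → Prop} (hP : ∀ᶠ k in deep K, P k) :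
    ∃ a b, P a ∧ P b ∧ ¬ Commute (f a) (f b) := by
  obtain ⟨H, h1, h2⟩ := hP
  obtain ⟨a, ha, b, hb, hc⟩ := h H h1
  exact ⟨a, b, h2 a ha, h2 b hb, hc⟩

theorem NAG.congr (h : NAG K f) (e : f =ᶠ[deep K] f') : NAG K f' := fun H hH => by
  obtain ⟨a, b, ha, hb, hc⟩ := h.of_ev (hH.ev.and e)
  exact ⟨a, ha.1, b, hb.1, by rwa [← ha.2, ← hb.2]⟩

theorem NAG.not_triv (h : NAG K f) : ¬ ∀ᶠ k in deep K, f k = 1 := fun e => by
  obtain ⟨a, b, ha, -, hc⟩ := h.of_ev e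
  exact hc (ha ▸ Commute.one_left _)

theorem NAG.ex_ne (h : NAG K f) {P : A → Prop} (hP : ∀ᶠ k in deep K, P k) :
    ∃ a, P a ∧ f a ≠ 1 := by
  obtain ⟨a, b, ha, -, hc⟩ := h.of_ev hP
  exact ⟨a, ha, fun e => hc (e ▸ Commute.one_left _)⟩

theorem Fixes.congr {a : MulAut F} (h : Fixes K f a) (e : f =ᶠ[deep K] f') : Fixes K f' a :=
  (h.and e).mono fun b hb => by rw [← hb.2]; exact hb.1

theorem hom_one (h : ∀ a ∈ H, ∀ b ∈ H, f (a * b) = f a * f b) : f 1 = 1 := by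
  have := h 1 H.one_mem 1 H.one_mem
  rw [mul_one] at this
  exact mul_eq_left.1 this.symm

theorem hom_inv (h : ∀ a ∈ H, ∀ b ∈ H, f (a * b) = f a * f b) {a : A} (ha : a ∈ H) :
    f a⁻¹ = (f a)⁻¹ := by
  have := h a ha a⁻¹ (H.inv_mem ha)
  rw [mul_inv_cancel, hom_one h] at this
  exact (eq_inv_of_mul_eq_one_right this.symm)

theorem hom_pow (h : ∀ a ∈ H, ∀ b ∈ H, f (a * b) = f a * f b) {a : A} (ha : a ∈ H) (n : ℕ) :
    f (a ^ n) = f a ^ n := by
  induction n with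
  | zero => rw [pow_zero, pow_zero, hom_one h]
  | succ n ih => rw [pow_succ, pow_succ, h _ (H.pow_mem ha n) a ha, ih]

theorem hom_conj (h : ∀ a ∈ H, ∀ b ∈ H, f (a * b) = f a * f b) {a b : A} (ha : a ∈ H)
    (hb : b ∈ H) : f (a * b * a⁻¹) = f a * f b * (f a)⁻¹ := by
  rw [h _ (H.mul_mem ha hb) _ (H.inv_mem ha), h a ha b hb, hom_inv h ha]

theorem sig_spec {g : Out F} (h : ∃ a, mkOut F a = g ∧ Fixes K f a) :
    mkOut F (sig K f g) = g ∧ Fixes K f (sig K f g) := by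
  rw [sig, dif_pos h]
  exact h.choose_spec

theorem sig_congr (e : f =ᶠ[deep K] f') : sig K f = sig K f' := by
  have h : Fixes K f = Fixes K f' := funext fun a =>
    propext ⟨fun h => h.congr e, fun h => h.congr e.symm⟩
  funext g
  unfold sig
  rw [h]

variable {T T' : A → Out F}

theorem sg_congr (e : f =ᶠ[deep K] f') : sg T K f = sg T K f' := by
  funext k
  rw [sg, sg, sig_congr e]

theorem tg_congr (e : f =ᶠ[deep K] f') : tg T K f =ᶠ[deep K] tg T K f' :=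
  e.mono fun k hk => by rw [tg, tg, sig_congr e, hk]

theorem Pre.congr (h : Pre T K f) (e : f =ᶠ[deep K] f') : Pre T K f' :=
  ⟨h.1.congr e, h.2.1.congr e, h.2.2.mono fun _ ⟨a, h1, h2⟩ => ⟨a, h1, h2.congr e⟩⟩

theorem Pre.spec (h : Pre T K f) :
    ∀ᶠ k in deep K, mkOut F (sg T K f k) = T k ∧ Fixes K f (sg T K f k) :=
  h.2.2.mono fun _ hk => sig_spec hk

theorem phiG_congr (h : f ∈ PhiG T K) (e : f =ᶠ[deep K] f') : f' ∈ PhiG T K := by
  refine ⟨h.1.congr e, h.2.imp ?_ ?_⟩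
  · rintro ⟨u, hu, h'⟩
    exact ⟨u, hu, (h'.and (tg_congr (T := T) e)).mono fun k hk => by rw [← hk.2]; exact hk.1⟩
  · rintro ⟨g, h1, h2, h3⟩
    exact ⟨g, h1, fun e' => h2 (e.trans e'), (tg_congr e).symm.trans h3⟩

theorem Pre.congr_T (h : Pre T K f) (e : T =ᶠ[deep K] T') : Pre T' K f :=
  ⟨h.1, h.2.1, (h.2.2.and e).mono fun _ hk => by rw [← hk.2]; exact hk.1⟩

theorem tg_congr_T (e : T =ᶠ[deep K] T') (f : A → F) : tg T K f =ᶠ[deep K] tg T' K f :=
  e.mono fun k hk => by rw [tg, tg, hk]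

theorem phiG_congr_T (e : T =ᶠ[deep K] T') : PhiG T K ⊆ PhiG T' K := fun f h => by
  refine ⟨h.1.congr_T e, h.2.imp ?_ ?_⟩
  · rintro ⟨u, hu, h'⟩
    exact ⟨u, hu, (h'.and (tg_congr_T e f)).mono fun k hk => by rw [← hk.2]; exact hk.1⟩
  · rintro ⟨g, h1, h2, h3⟩
    exact ⟨g, h1.congr_T e, h2, (tg_congr_T e f).symm.trans (h3.trans (tg_congr_T e g))⟩

variable [IsFreeGroup F]

theorem NAG.eq_one (h : NAG K f) {u : F} (hu : ∀ᶠ k in deep K, Commute u (f k)) : u = 1 := by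
  obtain ⟨a, b, ha, hb, hc⟩ := h.of_ev hu
  exact Q2T4A.eq_one_of_comm hc ha hb

theorem NAG.conj_inj (h : NAG K f) {a b : F} (e : MulAut.conj a = MulAut.conj b) : a = b := by
  have : b⁻¹ * a = 1 := h.eq_one (Eventually.of_forall fun k => by
    have h1 : a * f k * a⁻¹ = b * f k * b⁻¹ := DFunLike.congr_fun e (f k)
    change b⁻¹ * a * f k = f k * (b⁻¹ * a)
    calc b⁻¹ * a * f k = b⁻¹ * (a * f k * a⁻¹) * a := by group
      _ = f k * (b⁻¹ * a) := by rw [h1]; group)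
  exact (inv_mul_eq_one.1 this).symm

/-- Unique roots: a fixed germ is fixed on the whole domain. -/
theorem Fixes.all {a : MulAut F} (h : Fixes K f a) (hH : H ≤ K)
    (hf : ∀ a ∈ H, ∀ b ∈ H, f (a * b) = f a * f b) {b : A} (hb : b ∈ H) : a (f b) = f b := by
  obtain ⟨G, g1, g2⟩ := h
  obtain ⟨n, hn, h3⟩ := g1.pow_mem (hH hb)
  have := g2 _ h3
  change a (f (b ^ n)) = f (b ^ n) at this
  rw [hom_pow hf hb, map_pow] at this
  exact pow_left_injective hn this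

theorem lift_unique (h : NAG K f) {a a' : MulAut F} (e : mkOut F a = mkOut F a')
    (h1 : Fixes K f a) (h2 : Fixes K f a') : a = a' := by
  obtain ⟨g, rfl⟩ := mkOut_eq_iff.1 e
  have : g = 1 := h.eq_one ((h1.and h2).mono fun k hk => by
    have h3 := hk.1
    rw [MulAut.mul_apply, hk.2, MulAut.conj_apply] at h3
    exact mul_inv_eq_iff_eq_mul.1 h3)
  rw [this, map_one, one_mul]

theorem sig_eq (h : NAG K f) {a : MulAut F} {g : Out F} (e : mkOut F a = g) (h1 : Fixes K f a) :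
    sig K f g = a :=
  have h2 := sig_spec (K := K) (f := f) ⟨a, e, h1⟩
  lift_unique h (h2.1.trans e.symm) h2.2 h1

theorem eq_of_sg_tg (h : NAG K f) (e1 : sg T K f =ᶠ[deep K] sg T K f')
    (e2 : tg T K f =ᶠ[deep K] tg T K f') : f =ᶠ[deep K] f' :=
  (e1.and e2).mono fun k hk => by
    have h1 : sig K f (T k) = sig K f' (T k) := hk.1
    have h2 := hk.2
    rw [tg, tg, h1] at h2
    exact h.conj_inj (mul_right_cancel h2)

end Germ

section Tree

variable {A F : Type} [Group A] [Group F] (S : FTree F)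

theorem FTree.conj_ι (e : S.E) (g : F) : e * S.ι g * e⁻¹ = S.ι ((e : MulAut F) g) := by
  apply Subtype.ext
  rw [Subgroup.coe_mul, Subgroup.coe_mul, Subgroup.coe_inv, S.coe_ι, S.coe_ι]
  ext x
  simp

theorem FTree.mul_ι (e : S.E) (g : F) : e * S.ι g = S.ι ((e : MulAut F) g) * e := by
  rw [← S.conj_ι, inv_mul_cancel_right]

theorem FTree.smul_ι (e : S.E) (g : F) (x : S.X) :
    e • S.ι g • x = S.ι ((e : MulAut F) g) • e • x := by
  rw [← mul_smul, ← mul_smul, S.mul_ι]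

theorem FTree.mkOut_ι (g : F) : mkOut F (S.ι g) = 1 := by rw [S.coe_ι, mkOut_conj]

theorem FTree.ex_ι {e e' : S.E} (h : mkOut F e = mkOut F e') : ∃ g, e = S.ι g * e' := by
  obtain ⟨g, hg⟩ := mkOut_eq_iff.1 h
  exact ⟨g, Subtype.ext (by rw [Subgroup.coe_mul, S.coe_ι]; exact hg)⟩

theorem FTree.mem_of_lift (e : S.E) {a : MulAut F} (h : mkOut F a = mkOut F e) : a ∈ S.E := by
  obtain ⟨g, rfl⟩ := mkOut_eq_iff.1 h
  rw [← S.coe_ι]
  exact (S.ι g * e).2

theorem FTree.fix_btw {e : S.E} {x y z : S.X} (hx : e • x = x) (hy : e • y = y) (h : Btw x z y) :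
    e • z = z := by
  have h1 : Btw (e • x) (e • z) (e • y) := BAct.btw e x z y h
  rw [hx, hy] at h1
  refine h1.eq_of_dist h ?_
  conv_lhs => rw [← hx]
  rw [dist_smul]

/-- A non-trivial element fixes at most one vertex. -/
theorem FTree.fix_unique {g : F} (hg : g ≠ 1) {v w : S.X} (hv : S.ι g • v = v)
    (hw : S.ι g • w = w) : v = w := by
  by_contra hne
  obtain ⟨z, h1, h2⟩ := IsSimp.geo v w hne
  exact hg (S.edge g v z h1 hv (S.fix_btw hv hw h2))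

/-- Two lifts of one class that agree at two vertices are equal. -/
theorem FTree.eq_of_two {e e' : S.E} (h : mkOut F e = mkOut F e') {v w : S.X} (hne : v ≠ w)
    (hv : e • v = e' • v) (hw : e • w = e' • w) : e = e' := by
  obtain ⟨g, rfl⟩ := S.ex_ι h
  rw [mul_smul] at hv hw
  by_cases hg : g = 1
  · rw [hg, map_one, one_mul]
  · exact absurd (smul_left_cancel e' (S.fix_unique hg hv hw)) hne

theorem FTree.cent_fix {e : S.E} {g : F} (hg : g ≠ 1) (he : (e : MulAut F) g = g) {v : S.X}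
    (hv : S.ι g • v = v) : e • v = v := by
  refine S.fix_unique hg ?_ hv
  conv_lhs => rw [← he]
  rw [← S.smul_ι, hv]

theorem FTree.commute_of_fix {e : S.E} {g : F} (he : (e : MulAut F) g = g) :
    Commute e (S.ι g) := by
  change e * S.ι g = S.ι g * e
  rw [S.mul_ι, he]

theorem FTree.ne_of_adj {v w : S.X} (h : dist v w = 1) : v ≠ w := by
  rintro rfl
  rw [dist_self] at h
  exact zero_ne_one h

/-- An edge is seen from one of its ends. -/
theorem FTree.adj_or {v w : S.X} (h : dist v w = 1) (x : S.X) : Btw v w x ∨ Btw w v x := by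
  have h1 := med_btw12 v w x
  obtain ⟨n, hn⟩ := IsSimp.int v (med v w x)
  have h2 := h1.dist_le_left
  rw [h, hn] at h2
  have h3 : n = 0 ∨ n = 1 := by
    have : n ≤ 1 := by exact_mod_cast h2
    omega
  rcases h3 with rfl | rfl
  · right
    have e : v = med v w x := dist_eq_zero.1 (by rw [hn, Nat.cast_zero])
    have := med_btw23 v w x
    rwa [← e] at this
  · left
    have e : med v w x = w := h1.eq_of_dist (btw_right _ _) (by rw [hn, h, Nat.cast_one])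
    have := med_btw13 v w x
    rwa [e] at this

/-- Induction along edge paths. -/
theorem FTree.path_ind {P : S.X → Prop} {v : S.X} (h0 : P v)
    (hs : ∀ x y, dist x y = 1 → P x → P y) (w : S.X) : P w := by
  obtain ⟨n, hn⟩ := IsSimp.int v w
  induction n generalizing v with
  | zero => rwa [← dist_eq_zero.1 (hn.trans Nat.cast_zero)]
  | succ n ih =>
    have hne : v ≠ w := by
      rintro rfl
      rw [dist_self] at hn
      exact absurd hn.symm (by positivity)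
    obtain ⟨z, h1, h2⟩ := IsSimp.geo v w hne
    refine ih (hs v z h1 h0) ?_
    unfold Q2T1.Btw at h2
    rw [h1, hn] at h2
    push_cast at h2
    linarith

variable {S} {T : A → Out F} {K : Subgroup A} (Z : TS S T K)

/-- The section that fixes an edge. -/
def TS.τ (v w : S.X) (k : A) : S.E := S.ι (Z.f v w k) * Z.σ v k

theorem TS.τ_lift (v w : S.X) {k : A} (hk : k ∈ Z.H) : mkOut F (Z.τ v w k) = T k := by
  rw [TS.τ, Subgroup.coe_mul, map_mul, S.mkOut_ι, one_mul, Z.lift v k hk]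

theorem TS.τ_fix1 {v w : S.X} (h : dist v w = 1) {k : A} (hk : k ∈ Z.H) : Z.τ v w k • v = v := by
  rw [TS.τ, mul_smul, Z.fix v k hk, Z.ffix v w h k hk]

theorem TS.τ_fix2 {v w : S.X} (h : dist v w = 1) {k : A} (hk : k ∈ Z.H) : Z.τ v w k • w = w :=
  Z.tfix v w h k hk

/-- A lift that fixes an edge is the section of that edge. -/
theorem TS.eq_τ {v w : S.X} (h : dist v w = 1) {k : A} (hk : k ∈ Z.H) {e : S.E}
    (he : mkOut F e = T k) (hv : e • v = v) (hw : e • w = w) : e = Z.τ v w k :=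
  S.eq_of_two (he.trans (Z.τ_lift v w hk).symm) (S.ne_of_adj h) (hv.trans (Z.τ_fix1 h hk).symm)
    (hw.trans (Z.τ_fix2 h hk).symm)

theorem TS.τ_symm {v w : S.X} (h : dist v w = 1) {k : A} (hk : k ∈ Z.H) :
    Z.τ w v k = Z.τ v w k :=
  have h' : dist w v = 1 := by rw [dist_comm, h]
  Z.eq_τ h hk (Z.τ_lift w v hk) (Z.τ_fix2 h' hk) (Z.τ_fix1 h' hk)

theorem TS.coe_τ (v w : S.X) (k : A) :
    (Z.τ v w k : MulAut F) = MulAut.conj (Z.f v w k) * (Z.σ v k : MulAut F) := by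
  rw [TS.τ, Subgroup.coe_mul, S.coe_ι]

theorem TS.fixes {v w : S.X} (h : dist v w = 1) {k : A} (hk : k ∈ Z.H) :
    Fixes K (Z.f v w) (Z.σ v k) :=
  Z.dp.ev.mono fun b hb => Z.cen v k hk _ (Z.ffix v w h b hb)

theorem TS.pre {v w : S.X} (h : dist v w = 1) (hn : NAG K (Z.f v w)) : Pre T K (Z.f v w) :=
  ⟨⟨Z.H, Z.dp, Z.hom v w h⟩, hn, Z.dp.ev.mono fun k hk => ⟨_, Z.lift v k hk, Z.fixes h hk⟩⟩

variable [IsFreeGroup F]

theorem TS.sg_eq {v w : S.X} (h : dist v w = 1) (hn : NAG K (Z.f v w)) {k : A} (hk : k ∈ Z.H) :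
    sg T K (Z.f v w) k = Z.σ v k := sig_eq hn (Z.lift v k hk) (Z.fixes h hk)

theorem TS.tg_eq {v w : S.X} (h : dist v w = 1) (hn : NAG K (Z.f v w)) {k : A} (hk : k ∈ Z.H) :
    tg T K (Z.f v w) k = Z.τ v w k := by
  rw [Z.coe_τ, ← Z.sg_eq h hn hk]
  rfl

end Tree

end Pool.Agent.MP_3ce0a0_al.Q2T13
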