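import Pool.Agent.MP_3ce0a0_al.Q2T1.Defs
import Pool.Agent.MP_3ce0a0_al.Q2T15.Defs

/-! Germs on finite index subgroups, ports, sections and free twist groups. -/

set_option autoImplicit false

open Filter

namespace Pool.Agent.MP_3ce0a0_al.Q2T13

open H79 Q2T1 Q2T15

noncomputable section

section Germ

variable {A F : Type} [Group A] [Group F]

/-- `H` is a subgroup of finite index of `K`. -/
def Dp (K H : Subgroup A) : Prop := H ≤ K ∧ H.relIndex K ≠ 0

theorem Dp.refl (K : Subgroup A) : Dp K K := ⟨le_rfl, by simp⟩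

theorem Dp.inf {K H H' : Subgroup A} (h : Dp K H) (h' : Dp K H') : Dp K (H ⊓ H') :=
  ⟨inf_le_left.trans h.1, Subgroup.relIndex_inf_ne_zero h.2 h'.2⟩

/-- The sets that contain a subgroup of finite index of `K`. -/
def deep (K : Subgroup A) : Filter A where
  sets := {S | ∃ H, Dp K H ∧ ∀ k ∈ H, k ∈ S}
  univ_sets := ⟨K, Dp.refl K, fun _ _ => trivial⟩
  sets_of_superset := fun ⟨H, h, h'⟩ hS => ⟨H, h, fun k hk => hS (h' k hk)⟩
  inter_sets := fun ⟨H, h, h'⟩ ⟨G, g, g'⟩ =>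
    ⟨H ⊓ G, h.inf g, fun k hk => ⟨h' k hk.1, g' k hk.2⟩⟩

/-- `f` is multiplicative on a subgroup of finite index of `K`. -/
def HomG (K : Subgroup A) (f : A → F) : Prop :=
  ∃ H, Dp K H ∧ ∀ a ∈ H, ∀ b ∈ H, f (a * b) = f a * f b

/-- The values of `f` on a subgroup of finite index of `K` never commute. -/
def NAG (K : Subgroup A) (f : A → F) : Prop :=
  ∀ H, Dp K H → ∃ a ∈ H, ∃ b ∈ H, ¬ Commute (f a) (f b)

/-- The automorphism `a` fixes the deep values of `f`. -/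
def Fixes (K : Subgroup A) (f : A → F) (a : MulAut F) : Prop := ∀ᶠ b in deep K, a (f b) = f b

open Classical in
/-- The lift of `g` that fixes the deep values of `f`, if there is one. -/
def sig (K : Subgroup A) (f : A → F) (g : Out F) : MulAut F :=
  if h : ∃ a, mkOut F a = g ∧ Fixes K f a then h.choose else 1

variable (T : A → Out F) (K : Subgroup A)

/-- The section that centralises the image of `f`. -/
def sg (f : A → F) (k : A) : MulAut F := sig K f (T k)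

/-- The section at the other end of `f`. -/
def tg (f : A → F) (k : A) : MulAut F := MulAut.conj (f k) * sig K f (T k)

/-- Germs of homomorphisms with non-abelian image that is centralised by a section. -/
def Pre (f : A → F) : Prop :=
  HomG K f ∧ NAG K f ∧ ∀ᶠ k in deep K, ∃ a, mkOut F a = T k ∧ Fixes K f a

/-- The ports of `T` on `K`, defined without a tree. -/
def PhiG : Set (A → F) :=
  {f | Pre T K f ∧ ((∃ u, u ≠ 1 ∧ ∀ᶠ k in deep K, tg T K f k u = u) ∨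
    ∃ f', Pre T K f' ∧ ¬ f =ᶠ[deep K] f' ∧ tg T K f =ᶠ[deep K] tg T K f')}

/-- One step in the graph of sections, using only the ports that satisfy `ok`. -/
def StepG (ok : (A → F) → Prop) (s s' : A → MulAut F) : Prop :=
  s =ᶠ[deep K] s' ∨ ∃ f ∈ PhiG T K, ok f ∧
    ((s = sg T K f ∧ s' = tg T K f) ∨ (s = tg T K f ∧ s' = sg T K f))

end Germ

/-- A cocompact tree with trivial edge groups and no trivial leaf, on which a group of
automorphisms that contains the inner ones acts. -/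
structure FTree (F : Type) [Group F] where
  /-- the vertices -/
  X : Type
  [met : MetricSpace X]
  [smp : IsSimp X]
  /-- the acting group -/
  E : Subgroup (MulAut F)
  [act : MulAction E X]
  [iso : IsIsometricSMul E X]
  /-- the inner automorphisms -/
  ι : F →* E
  coe_ι : ∀ g, (ι g : MulAut F) = MulAut.conj g
  ne : Nonempty X
  noinv : NoInv X (⊤ : Subgroup E)
  edge : ∀ (g : F) (v w : X), dist v w = 1 → ι g • v = v → ι g • w = w → g = 1
  fin : ∃ s : Set (X × X), s.Finite ∧ ∀ v w : X, dist v w = 1 → ∃ g : F, (ι g • v, ι g • w) ∈ s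
  leaf : ∀ v w : X, dist v w = 1 → (∀ g : F, ι g • v = v → g = 1) → ∃ w', w' ≠ w ∧ dist v w' = 1

attribute [instance] FTree.met FTree.smp FTree.act FTree.iso

/-- `K` acts on the tree as a free twist group. -/
structure TS {A F : Type} [Group A] [Group F] (S : FTree F) (T : A → Out F) (K : Subgroup A) where
  /-- the domain -/
  H : Subgroup A
  /-- the sections at the vertices -/
  σ : S.X → A → S.E
  /-- the twisting elements at the half-edges -/
  f : S.X → S.X → A → F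
  dp : Dp K H
  lift : ∀ v, ∀ k ∈ H, mkOut F (σ v k) = T k
  fix : ∀ v, ∀ k ∈ H, σ v k • v = v
  cen : ∀ v, ∀ k ∈ H, ∀ g, S.ι g • v = v → (σ v k : MulAut F) g = g
  ffix : ∀ v w, dist v w = 1 → ∀ k ∈ H, S.ι (f v w k) • v = v
  tfix : ∀ v w, dist v w = 1 → ∀ k ∈ H, (S.ι (f v w k) * σ v k) • w = w
  hom : ∀ v w, dist v w = 1 → ∀ a ∈ H, ∀ b ∈ H, f v w (a * b) = f v w a * f v w b
  alt : ∀ v w, dist v w = 1 → (∀ k ∈ H, f v w k = 1) ∨ NAG K (f v w)

section Free

variable {α F : Type} [Group F]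

/-- The multitwists with values in `B` at the ends of the letters of `L`. -/
def KK (B : Subgroup (FreeGroup α)) (L : Finset α) : Subgroup (α × Bool → FreeGroup α) where
  carrier := {k | ∀ h, k h ∈ B ∧ (h.1 ∉ L → k h = 1)}
  one_mem' := fun _ => ⟨B.one_mem, fun _ => rfl⟩
  mul_mem' := fun {a b} ha hb h => ⟨B.mul_mem (ha h).1 (hb h).1, fun hh => by
    rw [Pi.mul_apply, (ha h).2 hh, (hb h).2 hh, mul_one]⟩
  inv_mem' := fun {a} ha h => ⟨B.inv_mem (ha h).1, fun hh => by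
    rw [Pi.inv_apply, (ha h).2 hh, inv_one]⟩

/-- The standard factor on a finite set of letters. -/
abbrev sf (I : Finset α) : Subgroup (FreeGroup α) := std (I : Set α)

/-- Admissible sets of letters. -/
def Adm (L I : Finset α) : Prop := Disjoint I L ∧ I.card ≤ 7

variable (ρ : Out (FreeGroup α) →* Out F)

/-- The tree and the sections at the vertices. -/
structure FT0 (L : Finset α) extends FTree F where
  /-- the deep words -/
  D : Subgroup (FreeGroup α)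
  /-- the sections at the vertices -/
  σ : X → (α × Bool → FreeGroup α) → E
  hD : ∀ I, Adm L I → D.relIndex (sf I) ≠ 0
  lift : ∀ I, Adm L I → ∀ k ∈ KK (sf I ⊓ D) L, ∀ v,
    mkOut F (σ v k) = ρ (multiO (L : Set α)ᶜ k)
  fix : ∀ I, Adm L I → ∀ k ∈ KK (sf I ⊓ D) L, ∀ v, σ v k • v = v
  cen : ∀ I, Adm L I → ∀ k ∈ KK (sf I ⊓ D) L, ∀ v g, ι g • v = v → (σ v k : MulAut F) g = g

variable {ρ}

/-- The half-edge at `v` towards `w` is a port with label `h` and homomorphism `φ`. -/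
structure FT0.IsPort {L : Finset α} (Y : FT0 ρ L) (v w : Y.X) (h : α × Bool)
    (φ : FreeGroup α → F) : Prop where
  adj : dist v w = 1
  lab : h.1 ∈ L
  hom : ∀ I, Adm L I → ∀ a ∈ sf I ⊓ Y.D, ∀ b ∈ sf I ⊓ Y.D, φ (a * b) = φ a * φ b
  inj : ∀ I, Adm L I → ∀ a ∈ sf I ⊓ Y.D, φ a = 1 → a = 1
  ffix : ∀ I, Adm L I → ∀ a ∈ sf I ⊓ Y.D, Y.ι (φ a) • v = v
  tfix : ∀ I, Adm L I → ∀ k ∈ KK (sf I ⊓ Y.D) L, (Y.ι (φ (k h)) * Y.σ v k) • w = w

variable (ρ)

/-- A free twist group: the output of section 4. -/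
structure FT (L : Finset α) extends FT0 ρ L where
  alt : ∀ v w : X, dist v w = 1 → (∀ I, Adm L I → ∀ k ∈ KK (sf I ⊓ D) L, σ v k • w = w) ∨
    ∃ h φ, toFT0.IsPort v w h φ

/-- The outer twist of the label `h`, seen in `Out F`. -/
def T1 (h : α × Bool) (b : FreeGroup α) : Out F := ρ (tau h b)

/-- The outer multitwist, seen in `Out F`. -/
def TK (I : Finset α) (k : α × Bool → FreeGroup α) : Out F := ρ (multiO (I : Set α) k)

/-- The ports over the standard factor on `I`. -/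
def Phi (I : Finset α) : Set (FreeGroup α → F) :=
  {f | ∃ h : α × Bool, h.1 ∉ I ∧ f ∈ PhiG (T1 ρ h) (sf I)}

/-- The sections at the two ends of the port `f`: `none` is the end that centralises the image. -/
def nd (I : Finset α) (f : FreeGroup α → F) :
    Option (α × Bool) → (α × Bool → FreeGroup α) → MulAut F
  | none => fun k => sig (sf I) f (TK ρ I k)
  | some h => fun k => MulAut.conj (f (k h)) * sig (sf I) f (TK ρ I k)

/-- One step in the graph of sections of the multitwists over `I` at the letters of `L`, using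
only the labelled ports that satisfy `ok`. -/
def Step (I L : Finset α) (ok : (FreeGroup α → F) → α × Bool → Prop)
    (s s' : (α × Bool → FreeGroup α) → MulAut F) : Prop :=
  s =ᶠ[deep (KK (sf I) L)] s' ∨ ∃ f ∈ Phi ρ I, ∃ h : α × Bool, h.1 ∈ L ∧ ok f h ∧
    ((s = nd ρ I f none ∧ s' = nd ρ I f (some h)) ∨ (s = nd ρ I f (some h) ∧ s' = nd ρ I f none))

/-- The sizes for which the ports are under control. -/
def Sz (I : Finset α) : Prop := 2 ≤ I.card ∧ I.card ≤ 7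

/-- The output of the block: properties of ports and of the graphs of sections. -/
structure Ports : Prop where
  lab : ∀ I, Sz I → ∀ h : α × Bool, h.1 ∉ I → Phi ρ I = PhiG (T1 ρ h) (sf I)
  congr : ∀ I, ∀ f ∈ Phi ρ I, ∀ f', f =ᶠ[deep (sf I)] f' → f' ∈ Phi ρ I
  ne : ∀ I, Sz I → (Phi ρ I).Nonempty
  hom : ∀ I, Sz I → ∀ f ∈ Phi ρ I, ∃ H, Dp (sf I) H ∧
    (∀ a ∈ H, ∀ b ∈ H, f (a * b) = f a * f b) ∧ ∀ a ∈ H, f a = 1 → a = 1
  conj : ∀ I, ∀ f ∈ Phi ρ I, ∀ g : F, (fun b => g * f b * g⁻¹) ∈ Phi ρ I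
  fin : ∀ I, Sz I → ∃ s : Set (FreeGroup α → F), s.Finite ∧
    ∀ f ∈ Phi ρ I, ∃ f₀ ∈ s, ∃ g : F, f =ᶠ[deep (sf I)] fun b => g * f₀ b * g⁻¹
  res : ∀ I J, Sz I → Sz J → J ⊆ I → Phi ρ I ⊆ Phi ρ J
  onto : ∀ I J, Sz I → Sz J → J ⊆ I → ∀ f ∈ Phi ρ J, ∃ f' ∈ Phi ρ I, f =ᶠ[deep (sf J)] f'
  inj : ∀ I J : Finset α, 3 ≤ J.card → I.card ≤ 5 → J ⊆ I → ∀ f ∈ Phi ρ I, ∀ f' ∈ Phi ρ I,
    f =ᶠ[deep (sf J)] f' → f =ᶠ[deep (sf I)] f'
  p4 : ∀ I, Sz I → ∀ x, x ∉ I → ∀ γ ∈ NA ({x}ᶜ : Set α), (∀ w, γ w ∈ sf I ↔ w ∈ sf I) →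
    ∀ a : MulAut F, mkOut F a = ρ (mkOut _ γ) → ∀ f ∈ Phi ρ I, (fun b => a (f (γ⁻¹ b))) ∈ Phi ρ I
  p5 : ∀ I, Sz I → ∀ w ∈ sf I, ∀ f ∈ Phi ρ I, (fun b => f (w * b * w⁻¹)) ∈ Phi ρ I
  cen : ∀ I L, Sz I → Disjoint I L → L.card ≤ 4 → ∀ f ∈ Phi ρ I,
    ∀ᶠ k in deep (KK (sf I) L), ∃ a, mkOut F a = TK ρ I k ∧ Fixes (sf I) f a
  conn : ∀ I L, Sz I → Disjoint I L → L.card ≤ 4 → L.Nonempty → ∀ f ∈ Phi ρ I, ∀ f' ∈ Phi ρ I,
    Relation.ReflTransGen (Step ρ I L fun _ _ => True) (nd ρ I f none) (nd ρ I f' none)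
  bridge : ∀ I L, Sz I → Disjoint I L → L.card ≤ 4 → ∀ f ∈ Phi ρ I, ∀ h : α × Bool, h.1 ∈ L →
    ¬ Relation.ReflTransGen (Step ρ I L fun f' h' => ¬ (h' = h ∧ f' =ᶠ[deep (sf I)] f))
      (nd ρ I f none) (nd ρ I f (some h))

end Free

end

end Pool.Agent.MP_3ce0a0_al.Q2T13
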