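import Pool.Agent.MP_3ce0a0_al.Q2T13.Basic
import Pool.Agent.MP_3ce0a0_al.Q2T15.G

/-! Lemmas on standard factors and multitwists. -/

set_option autoImplicit false

open Filter

namespace Pool.Agent.MP_3ce0a0_al.Q2T13

open H79 Q2T1 Q2T15

variable {α : Type}

theorem mem_KK {B : Subgroup (FreeGroup α)} {L : Finset α} {k : α × Bool → FreeGroup α} :
    k ∈ KK B L ↔ ∀ h, k h ∈ B ∧ (h.1 ∉ L → k h = 1) := Iff.rfl

theorem KK_mono {B B' : Subgroup (FreeGroup α)} {L L' : Finset α} (hB : B ≤ B') (hL : L ⊆ L') :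
    KK B L ≤ KK B' L' := fun _ hk h => ⟨hB (hk h).1, fun hh => (hk h).2 fun e => hh (hL e)⟩

theorem sf_mono {I J : Finset α} (h : I ⊆ J) : sf I ≤ sf J := std_mono (Finset.coe_subset.2 h)

/-- The coordinate at a label. -/
def pr (h : α × Bool) : (α × Bool → FreeGroup α) →* FreeGroup α :=
  Pi.evalMonoidHom (fun _ => FreeGroup α) h

theorem pr_apply (h : α × Bool) (k : α × Bool → FreeGroup α) : pr h k = k h := rfl

theorem tendsto_pr (B : Subgroup (FreeGroup α)) (L : Finset α) (h : α × Bool) :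
    Tendsto (fun k : α × Bool → FreeGroup α => k h) (deep (KK B L)) (deep B) :=
  tendsto_deep (pr h) fun _ hk => (hk h).1

theorem dp_KK {B H : Subgroup (FreeGroup α)} (hH : Dp B H) (L : Finset α) :
    Dp (KK B L) (KK H L) := by
  have h1 : ∀ᶠ k in deep (KK B L), ∀ h ∈ L ×ˢ (Finset.univ : Finset Bool), k h ∈ H :=
    (eventually_all_finset _).2 fun h _ => (tendsto_pr B L h).eventually hH.ev
  obtain ⟨G, g1, g2⟩ := h1
  refine ⟨KK_mono hH.1 le_rfl, fun h0 => g1.2 (Subgroup.relIndex_eq_zero_of_le_left ?_ h0)⟩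
  intro k hk h
  refine ⟨?_, (g1.1 hk h).2⟩
  by_cases hh : h.1 ∈ L
  · exact g2 k hk h (Finset.mem_product.2 ⟨hh, Finset.mem_univ _⟩)
  · rw [(g1.1 hk h).2 hh]
    exact H.one_mem

theorem mulSingle_mem_KK [DecidableEq α] {B : Subgroup (FreeGroup α)} {L : Finset α}
    {h : α × Bool} (hh : h.1 ∈ L) {b : FreeGroup α} (hb : b ∈ B) :
    (Pi.mulSingle h b : α × Bool → FreeGroup α) ∈ KK B L := fun h' => by
  by_cases e : h' = h
  · subst e
    rw [Pi.mulSingle_eq_same]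
    exact ⟨hb, fun hn => absurd hh hn⟩
  · rw [Pi.mulSingle_eq_of_ne e]
    exact ⟨B.one_mem, fun _ => rfl⟩

theorem map_pr {B : Subgroup (FreeGroup α)} {L : Finset α} {h : α × Bool} (hh : h.1 ∈ L) :
    (KK B L).map (pr h) = B := by
  classical
  refine le_antisymm ?_ fun b hb => ⟨_, mulSingle_mem_KK hh hb, by
    rw [pr_apply, Pi.mulSingle_eq_same]⟩
  rintro _ ⟨k, hk, rfl⟩
  exact (hk h).1

/-- A property of one coordinate is deep on the product iff it is deep on the factor. -/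
theorem ev_pr {B : Subgroup (FreeGroup α)} {L : Finset α} {h : α × Bool} (hh : h.1 ∈ L)
    {P : FreeGroup α → Prop} : (∀ᶠ k in deep (KK B L), P (k h)) ↔ ∀ᶠ b in deep B, P b :=
  ⟨fun e => ev_of_surj (pr h) (map_pr hh) e, fun e => (tendsto_pr B L h).eventually e⟩

/-- The multitwist does not depend on the factor it is written over. -/
theorem multi_congr {I L : Finset α} {J J' : Set α} (hJ : (I : Set α) ⊆ J) (hJ' : (I : Set α) ⊆ J')
    (hd : ∀ x ∈ L, x ∉ J) (hd' : ∀ x ∈ L, x ∉ J') {k : α × Bool → FreeGroup α}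
    (hk : k ∈ KK (sf I) L) : multi J k = multi J' k := by
  have key : ∀ J : Set α, (I : Set α) ⊆ J → (∀ x ∈ L, x ∉ J) → ∀ x,
      multi J k (FreeGroup.of x) = (k (x, false))⁻¹ * FreeGroup.of x * k (x, true) := by
    intro J hJ hd x
    by_cases hx : x ∈ J
    · have hL : x ∉ L := fun e => hd x e hx
      rw [multi_of_mem _ hx, (hk (x, false)).2 hL, (hk (x, true)).2 hL, inv_one, one_mul, mul_one]
    · exact multi_of_std (fun h => std_mono hJ (hk h).1) hx
  exact aut_ext fun x => (key J hJ hd x).trans (key J' hJ' hd' x).symm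

theorem not_commute_of {x y : α} (hxy : x ≠ y) : ¬ Commute (FreeGroup.of x) (FreeGroup.of y) := by
  intro h
  have h1 : FreeGroup.of x = 1 :=
    eq_one_of_commute_two hxy (by group) (by rw [h.eq, mul_inv_cancel_right])
  exact FreeGroup.of_ne_one x h1

theorem not_commute_pow {x y : α} (hxy : x ≠ y) {m n : ℕ} (hm : m ≠ 0) (hn : n ≠ 0) :
    ¬ Commute (FreeGroup.of x ^ m) (FreeGroup.of y ^ n) := fun h =>
  not_commute_of hxy ((Q2T4A.comm_pow_iff hm hn).1 h)

theorem of_mem_sf {I : Finset α} {x : α} (hx : x ∈ I) : FreeGroup.of x ∈ sf I :=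
  of_mem_std (Finset.mem_coe.2 hx)

theorem nag_sf {I : Finset α} (hI : 2 ≤ I.card) : NAG (sf I) fun b => b := fun H hH => by
  obtain ⟨x, hx, y, hy, hxy⟩ := Finset.one_lt_card.1 (show 1 < I.card by omega)
  obtain ⟨m, hm, h1⟩ := hH.pow_mem (of_mem_sf hx)
  obtain ⟨n, hn, h2⟩ := hH.pow_mem (of_mem_sf hy)
  exact ⟨_, h1, _, h2, not_commute_pow hxy hm hn⟩

/-- An injective homomorphism keeps non-commuting elements. -/
theorem not_commute_map {A F : Type} [Group A] [Group F] {H : Subgroup A} {f : A → F}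
    (hf : ∀ a ∈ H, ∀ b ∈ H, f (a * b) = f a * f b) (hi : ∀ a ∈ H, f a = 1 → a = 1) {a b : A}
    (ha : a ∈ H) (hb : b ∈ H) (h : ¬ Commute a b) : ¬ Commute (f a) (f b) := fun e => by
  have h1 : a * b * a⁻¹ ∈ H := H.mul_mem (H.mul_mem ha hb) (H.inv_mem ha)
  have h2 := hi _ (H.mul_mem h1 (H.inv_mem hb)) (by
    rw [hf _ h1 _ (H.inv_mem hb), hom_conj hf ha hb, hom_inv hf hb, e.eq]; group)
  exact h (mul_inv_eq_iff_eq_mul.1 (mul_inv_eq_one.1 h2))

theorem nag_of_inj {F : Type} [Group F] {I : Finset α} (hI : 2 ≤ I.card)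
    {H : Subgroup (FreeGroup α)} (hH : Dp (sf I) H) {f : FreeGroup α → F}
    (hf : ∀ a ∈ H, ∀ b ∈ H, f (a * b) = f a * f b) (hi : ∀ a ∈ H, f a = 1 → a = 1) :
    NAG (sf I) f := fun G hG => by
  obtain ⟨a, ha, b, hb, hc⟩ := nag_sf hI _ (hG.inf hH)
  exact ⟨a, ha.1, b, hb.1, not_commute_map hf hi ha.2 hb.2 hc⟩

/-- A small set of letters outside `I` extends to four letters outside `I`. -/
theorem ex_four [Fintype α] (hα : 11 ≤ Fintype.card α) {I L₀ : Finset α} (hI : I.card ≤ 7)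
    (hd : Disjoint I L₀) (hL : L₀.card ≤ 4) : ∃ L, L₀ ⊆ L ∧ L.card = 4 ∧ Adm L I := by
  classical
  have h1 : L₀ ⊆ Iᶜ := fun x hx => Finset.mem_compl.2 fun e => Finset.disjoint_left.1 hd e hx
  have h2 : 4 ≤ Iᶜ.card := by rw [Finset.card_compl]; omega
  obtain ⟨L, e1, e2, e3⟩ := Finset.exists_subsuperset_card_eq h1 hL h2
  exact ⟨L, e1, e3, Finset.disjoint_left.2 fun x hx hx' => Finset.mem_compl.1 (e2 hx') hx, hI⟩

theorem ex_not_mem [Fintype α] {I : Finset α} (h : I.card < Fintype.card α) : ∃ x, x ∉ I := by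
  by_contra hn
  push Not at hn
  have : I = Finset.univ := Finset.eq_univ_of_forall hn
  rw [this, Finset.card_univ] at h
  exact lt_irrefl _ h

theorem Adm.mono {L I J : Finset α} (h : Adm L I) (hJ : J ⊆ I) : Adm L J :=
  ⟨h.1.mono_left hJ, (Finset.card_le_card hJ).trans h.2⟩

theorem phi_congr {F : Type} [Group F] {ρ : Out (FreeGroup α) →* Out F} {I : Finset α}
    {f f' : FreeGroup α → F} (h : f ∈ Phi ρ I) (e : f =ᶠ[deep (sf I)] f') : f' ∈ Phi ρ I :=
  let ⟨x, hx, h'⟩ := h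
  ⟨x, hx, phiG_congr h' e⟩

theorem phi_nag {F : Type} [Group F] {ρ : Out (FreeGroup α) →* Out F} {I : Finset α}
    {f : FreeGroup α → F} (h : f ∈ Phi ρ I) : NAG (sf I) f :=
  let ⟨_, _, h'⟩ := h
  h'.1.2.1

end Pool.Agent.MP_3ce0a0_al.Q2T13
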