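import Pool.Agent.MP_3ce0a0_al.Q2T13.Spec

/-! Ports are natural. -/

set_option autoImplicit false

open Filter

namespace Pool.Agent.MP_3ce0a0_al.Q2T13

open H79 Q2T1 Q2T15

namespace RNat

variable {A F : Type} [Group A] [Group F] {T T' : A → Out F} {K K' : Subgroup A} {ψ : MulAut A}
  {a : MulAut F} {f : A → F}

theorem bwd (hK : ∀ w, ψ w ∈ K' ↔ w ∈ K) : Tendsto (fun b => ψ⁻¹ b) (deep K') (deep K) :=
  tendsto_deep (ψ⁻¹ : MulAut A).toMonoidHom fun k hk => (hK _).1 (by simpa using hk)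

theorem fwd (hK : ∀ w, ψ w ∈ K' ↔ w ∈ K) : Tendsto (fun b => ψ b) (deep K) (deep K') :=
  tendsto_deep ψ.toMonoidHom fun k hk => (hK k).2 hk

theorem fixes (hK : ∀ w, ψ w ∈ K' ↔ w ∈ K) {s : MulAut F} (h : Fixes K f s) :
    Fixes K' (fun b => a (f (ψ⁻¹ b))) (a * s * a⁻¹) :=
  ((bwd hK).eventually h).mono fun b hb => by
    simp only [MulAut.mul_apply, MulAut.inv_apply_self]
    rw [hb]

theorem homG (hK : ∀ w, ψ w ∈ K' ↔ w ∈ K) (h : HomG K f) : HomG K' fun b => a (f (ψ⁻¹ b)) := by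
  obtain ⟨H, h1, h2⟩ := h
  refine ⟨_, h1.comap (ψ⁻¹ : MulAut A).toMonoidHom fun k hk => (hK _).1 (by simpa using hk),
    fun b hb c hc => ?_⟩
  show a (f (ψ⁻¹ (b * c))) = a (f (ψ⁻¹ b)) * a (f (ψ⁻¹ c))
  rw [map_mul, h2 (ψ⁻¹ b) hb.1 (ψ⁻¹ c) hc.1, map_mul]

theorem nag (hK : ∀ w, ψ w ∈ K' ↔ w ∈ K) (h : NAG K f) : NAG K' fun b => a (f (ψ⁻¹ b)) :=
  fun H hH => by
    obtain ⟨b, c, hb, hc, hn⟩ := h.of_ev ((fwd hK).eventually hH.ev)
    refine ⟨_, hb, _, hc, fun e => hn ?_⟩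
    simp only [MulAut.inv_apply_self] at e
    exact a.injective (by rw [map_mul, map_mul]; exact e)

theorem ev (hK : ∀ w, ψ w ∈ K' ↔ w ∈ K)
    (hT : ∀ᶠ k in deep K, T' (ψ k) = mkOut F a * T k * (mkOut F a)⁻¹) (h : Pre T K f) :
    ∀ᶠ k in deep K', mkOut F (a * sg T K f (ψ⁻¹ k) * a⁻¹) = T' k ∧
      Fixes K' (fun b => a (f (ψ⁻¹ b))) (a * sg T K f (ψ⁻¹ k) * a⁻¹) :=
  ((bwd hK).eventually (hT.and h.spec)).mono fun k hk => by
    refine ⟨?_, fixes hK hk.2.2⟩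
    have := hk.1
    rw [MulAut.apply_inv_self] at this
    rw [this, map_mul, map_mul, map_inv, hk.2.1]

theorem pre (hK : ∀ w, ψ w ∈ K' ↔ w ∈ K)
    (hT : ∀ᶠ k in deep K, T' (ψ k) = mkOut F a * T k * (mkOut F a)⁻¹) (h : Pre T K f) :
    Pre T' K' fun b => a (f (ψ⁻¹ b)) :=
  ⟨homG hK h.1, nag hK h.2.1, (ev hK hT h).mono fun _ hk => ⟨_, hk⟩⟩

theorem tg_eq [IsFreeGroup F] (hK : ∀ w, ψ w ∈ K' ↔ w ∈ K)
    (hT : ∀ᶠ k in deep K, T' (ψ k) = mkOut F a * T k * (mkOut F a)⁻¹) (h : Pre T K f) :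
    ∀ᶠ k in deep K', tg T' K' (fun b => a (f (ψ⁻¹ b))) k = a * tg T K f (ψ⁻¹ k) * a⁻¹ :=
  (ev hK hT h).mono fun k hk => by
    rw [tg, tg, sig_eq (nag hK h.2.1) hk.1 hk.2, sg]
    ext x
    simp [mul_assoc]

end RNat

open RNat in
theorem rowNat : StmtNat := by
  intro A F _ _ _ T T' K K' ψ a hK hT f hf
  refine ⟨pre hK hT hf.1, hf.2.imp ?_ ?_⟩
  · rintro ⟨u, hu, h⟩
    refine ⟨a u, fun e => hu (a.injective (e.trans (map_one a).symm)),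
      ((tg_eq hK hT hf.1).and ((bwd hK).eventually h)).mono fun k hk => ?_⟩
    rw [hk.1]
    simp only [MulAut.mul_apply, MulAut.inv_apply_self]
    rw [hk.2]
  · rintro ⟨g, h1, h2, h3⟩
    refine ⟨_, pre hK hT h1, fun e => h2 (((fwd hK).eventually e).mono fun k hk => ?_),
      (((tg_eq hK hT hf.1).and (tg_eq hK hT h1)).and ((bwd hK).eventually h3)).mono
        fun k hk => ?_⟩
    · simp only [MulAut.inv_apply_self] at hk
      exact a.injective hk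
    · rw [hk.1.1, hk.1.2, hk.2]

end Pool.Agent.MP_3ce0a0_al.Q2T13
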