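import Pool.Agent.MP_3ce0a0_al.Q2T13.Spec

/-! Two ports that agree on three letters agree on all letters but two of the three. -/

set_option autoImplicit false

open Filter

namespace Pool.Agent.MP_3ce0a0_al.Q2T13

open H79 Q2T1 Q2T15

namespace RPD0

section Abs

variable {A A' F : Type} [Group A] [Group A'] [Group F] {K : Subgroup A} {V : Subgroup A'}
  {Γ : A' →* MulAut A} {R : A' →* Out F} {f : A → F}

theorem tend (hΓ : ∀ v ∈ V, ∀ w ∈ K, Γ v w ∈ K) {v : A'} (hv : v ∈ V) :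
    Tendsto (Γ v) (deep K) (deep K) := tendsto_deep (Γ v).toMonoidHom (hΓ v hv)

/-- The elements that fix the class of `f`. -/
def St (hΓ : ∀ v ∈ V, ∀ w ∈ K, Γ v w ∈ K) (R : A' →* Out F) (f : A → F) : Subgroup A' where
  carrier := {v | v ∈ V ∧ ∃ e, mkOut F e = R v ∧ ∀ᶠ b in deep K, e (f b) = f (Γ v b)}
  one_mem' := ⟨V.one_mem, 1, by rw [map_one, map_one], Eventually.of_forall fun b => by simp⟩
  mul_mem' := by
    rintro v v' ⟨hv, e, h1, h2⟩ ⟨hv', e', h1', h2'⟩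
    refine ⟨V.mul_mem hv hv', e * e', by rw [map_mul, map_mul, h1, h1'], ?_⟩
    filter_upwards [h2', (tend hΓ hv').eventually h2] with b hb hb'
    rw [MulAut.mul_apply, hb, hb', map_mul, MulAut.mul_apply]
  inv_mem' := by
    rintro v ⟨hv, e, h1, h2⟩
    refine ⟨V.inv_mem hv, e⁻¹, by rw [map_inv, map_inv, h1], ?_⟩
    filter_upwards [(tend hΓ (V.inv_mem hv)).eventually h2] with b hb
    rw [← MulAut.mul_apply, ← map_mul, mul_inv_cancel, map_one, MulAut.one_apply] at hb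
    rw [← hb, MulAut.inv_apply_self]

theorem fi (hΓ : ∀ v ∈ V, ∀ w ∈ K, Γ v w ∈ K) {s : Set (A → F)} (hs : s.Finite)
    (h : ∀ v ∈ V, ∀ a, mkOut F a = R v → ∃ f₀ ∈ s, ∃ g : F,
      (fun b => a (f ((Γ v)⁻¹ b))) =ᶠ[deep K] fun b => g * f₀ b * g⁻¹) :
    ∀ᶠ v in deep V, ∃ e, mkOut F e = R v ∧ ∀ᶠ b in deep K, e (f b) = f (Γ v b) := by
  have hsur : ∀ v : V, ∃ a, mkOut F a = R v := fun v => QuotientGroup.mk'_surjective _ _
  choose a ha using hsur
  choose f₀ hf₀ g hg using fun v : V => h v v.2 (a v) (ha v)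
  have key : ∀ v v' : V, f₀ v = f₀ v' → (v : A')⁻¹ * v' ∈ St hΓ R f := by
    intro v v' e
    refine ⟨V.mul_mem (V.inv_mem v.2) v'.2, (a v)⁻¹ * MulAut.conj (g v * (g v')⁻¹) * a v', ?_, ?_⟩
    · rw [map_mul, map_mul, map_inv, mkOut_conj, mul_one, ha, ha, map_mul, map_inv]
    · filter_upwards [(tend hΓ v'.2).eventually ((hg v).and (hg v'))] with b hb
      obtain ⟨h1, h2⟩ := hb
      rw [MulAut.inv_apply_self] at h2
      rw [MulAut.mul_apply, MulAut.mul_apply, h2, MulAut.conj_apply, map_mul Γ, map_inv Γ,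
        MulAut.mul_apply, MulAut.inv_apply (e := a v), MulEquiv.symm_apply_eq, h1, e]
      group
  refine ⟨St hΓ R f, ⟨fun v hv => hv.1, ?_⟩, fun v hv => hv.2⟩
  have := hs.to_subtype
  have : Finite (V ⧸ (St hΓ R f).subgroupOf V) := by
    refine Finite.of_injective (fun q => (⟨f₀ q.out, hf₀ _⟩ : s)) fun q q' e => ?_
    rw [← q.out_eq', ← q'.out_eq', QuotientGroup.eq]
    exact key _ _ (congrArg Subtype.val e)
  exact Subgroup.index_ne_zero_of_finite

end Abs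

variable {α : Type}

/-- Conjugation of the letter `z`. -/
noncomputable def ga (z : α) : FreeGroup α →* MulAut (FreeGroup α) :=
  (multi ({z}ᶜ : Set α)).comp (MonoidHom.pi fun _ => MonoidHom.id _)

theorem ga_std (z : α) (v : FreeGroup α) {w : FreeGroup α} (hw : w ∈ std ({z}ᶜ : Set α)) :
    ga z v w = w := multi_std _ hw

theorem ga_self {z : α} {v : FreeGroup α} (hv : v ∈ std ({z}ᶜ : Set α)) :
    ga z v (FreeGroup.of z) = v⁻¹ * FreeGroup.of z * v :=
  multi_of_std (fun _ => hv) fun h => h rfl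

theorem ga_mem {z : α} {v : FreeGroup α} (hv : v ∈ std ({z}ᶜ : Set α)) {S : Set α}
    (hS : v ∈ std S) {w : FreeGroup α} (hw : w ∈ std S) : ga z v w ∈ std S := by
  refine aut_mem_std (fun y hy => ?_) hw
  by_cases e : y = z
  · subst e
    rw [ga_self hv]
    exact mul_mem (mul_mem (inv_mem hS) (of_mem_std hy)) hS
  · rw [ga_std z v (of_mem_std_compl e)]
    exact of_mem_std hy

variable {F : Type} [Fintype α] [Group F] [IsFreeGroup F] {ρ : Out (FreeGroup α) →* Out F}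

omit [IsFreeGroup F] in
theorem stab (hs : Std ρ) (ha : PA ρ) (hb : PB ρ) (hc : PC ρ) {I I' : Finset α} (hI : Sz I)
    (hI' : I' ⊆ I) {z : α} (hz : z ∈ I) (hz' : z ∉ I') {f : FreeGroup α → F} (hf : f ∈ Phi ρ I) :
    ∀ᶠ v in deep (sf I'), ∃ e, mkOut F e = ρ (mkOut _ (ga z v)) ∧
      ∀ᶠ b in deep (sf I), e (f b) = f (ga z v b) := by
  obtain ⟨x, hx⟩ := ex_not_mem (I := I) (by have := hs.card; have := hI.2; omega)
  obtain ⟨s, h1, h2⟩ := ha.fin I hI (x, true) hx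
  rw [← hb I hI (x, true) hx] at h2
  have hv : ∀ v ∈ sf I', v ∈ std ({z}ᶜ : Set α) := fun v h => mem_std_compl hz' h
  have hΓ : ∀ v ∈ sf I', ∀ w ∈ sf I, ga z v w ∈ sf I := fun v h w hw =>
    ga_mem (hv v h) (sf_mono hI' h) hw
  refine fi (R := ρ.comp ((mkOut _).comp (ga z))) hΓ h1 fun v h a e => h2 _ ?_
  have hx' : ∀ v ∈ sf I', ∀ w ∈ std ({x}ᶜ : Set α), ga z v w ∈ std ({x}ᶜ : Set α) :=
    fun v h w hw => ga_mem (hv v h) (mem_std_compl hx (sf_mono hI' h)) hw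
  refine hc.p4 I hI x hx (ga z v) (mem_NA_of (fun y hy => ?_) (hx' v h) fun w hw => ?_)
    (fun w => ⟨fun hw => ?_, hΓ v h w⟩) a e f hf
  · obtain rfl : y = x := not_not.1 hy
    exact ga_std z v (of_mem_std_compl fun e => hx (e ▸ hz))
  · rw [← map_inv]
    exact hx' _ (inv_mem h) w hw
  · have := hΓ _ (inv_mem h) _ hw
    rwa [map_inv, MulAut.inv_apply_self] at this

theorem key (hs : Std ρ) (ha : PA ρ) (hb : PB ρ) (hc : PC ρ) {I I' J : Finset α} (hI : Sz I)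
    (hI' : I' ⊆ I) (hJ : J ⊆ I) {z y c : α} (hz : z ∈ J) (hy : y ∈ J) (hc' : c ∈ J) (hz' : z ∉ I')
    (h1 : y ≠ z) (h2 : c ≠ z) (h3 : y ≠ c) {f f' : FreeGroup α → F} (hf : f ∈ Phi ρ I)
    (hf' : f' ∈ Phi ρ I) (e : f =ᶠ[deep (sf J)] f') {H H' : Subgroup (FreeGroup α)}
    (hH : Dp (sf I) H) (m : ∀ a ∈ H, ∀ b ∈ H, f (a * b) = f a * f b)
    (hi : ∀ a ∈ H, f a = 1 → a = 1) (hH' : Dp (sf I) H')
    (m' : ∀ a ∈ H', ∀ b ∈ H', f' (a * b) = f' a * f' b) :
    ∀ᶠ v in deep (sf I'), ∃ n : ℕ, n ≠ 0 ∧ FreeGroup.of z ^ n ∈ H ∧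
      Commute (f' v * (f v)⁻¹) (f (FreeGroup.of z ^ n)) := by
  classical
  have dI := deep_mono (sf_mono hI')
  have dJ := deep_mono (sf_mono hJ)
  have hL : ({y, c} : Finset α) ⊆ J := by
    intro t ht
    rcases Finset.mem_insert.1 ht with rfl | ht
    · exact hy
    · rwa [Finset.mem_singleton.1 ht]
  have dL := deep_mono (sf_mono hL)
  have hzL : z ∉ (({y, c} : Finset α) : Set α) := by
    simp only [Finset.coe_insert, Finset.coe_singleton, Set.mem_insert_iff, Set.mem_singleton_iff,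
      not_or]
    exact ⟨h1.symm, h2.symm⟩
  have nag : NAG (sf {y, c}) f :=
    nag_of_inj (Finset.card_pair h3).ge (hH.restrict (sf_mono (hL.trans hJ)))
      (fun a p b q => m a p.1 b q.1) fun a p => hi a p.1
  filter_upwards [stab hs ha hb hc hI hI' (hJ hz) hz' hf, stab hs ha hb hc hI hI' (hJ hz) hz' hf',
    hH.ev.filter_mono dI, hH'.ev.filter_mono dI, ev_mem (sf I')] with v s s' vH vH' hv
  obtain ⟨a, a1, a2⟩ := s
  obtain ⟨a', a1', a2'⟩ := s'
  have fx : ∀ {g : FreeGroup α → F} {a : MulAut F},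
      (∀ᶠ b in deep (sf I), a (g b) = g (ga z v b)) → Fixes (sf {y, c}) g a := fun h =>
    ((h.filter_mono (dL.trans dJ)).and (ev_mem _)).mono fun b hb => by
      rw [hb.1, ga_std z v (mem_std_compl hzL hb.2)]
  obtain rfl : a = a' :=
    lift_unique nag (a1.trans a1'.symm) (fx a2) ((fx a2').congr (e.symm.filter_mono dL))
  obtain ⟨n, hn, p⟩ := ev_pow ((((hH.ev.and hH'.ev).and (a2.and a2')).filter_mono dJ).and e)
    (of_mem_sf hz)
  obtain ⟨⟨⟨p1, p2⟩, p3, p4⟩, p5⟩ := p 1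
  rw [zpow_one] at p1 p2 p3 p4 p5
  have q : ga z v (FreeGroup.of z ^ n) = v⁻¹ * FreeGroup.of z ^ n * v⁻¹⁻¹ := by
    rw [map_pow, ga_self (mem_std_compl hz' hv), ← conj_pow, inv_inv]
  rw [q, hom_conj m (inv_mem vH) p1, hom_inv m vH] at p3
  rw [q, hom_conj m' (inv_mem vH') p2, hom_inv m' vH', ← p5, p3] at p4
  refine ⟨n, hn, p1, ?_⟩
  change f' v * (f v)⁻¹ * _ = _ * (f' v * (f v)⁻¹)
  calc f' v * (f v)⁻¹ * f (FreeGroup.of z ^ n)
      = f' v * ((f v)⁻¹ * f (FreeGroup.of z ^ n) * (f v)⁻¹⁻¹) * (f v)⁻¹ := by group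
    _ = _ := by rw [p4]; group

end RPD0

theorem rowPD0 : StmtPD0 := by
  intro α F _ _ _ _ ρ hs ha hb hc I hI a b c ia ib ic ab ac bc f hf f' hf' e
  obtain ⟨x, hx⟩ := ex_not_mem (I := I) (by have := hs.card; have := hI.2; omega)
  obtain ⟨H, hH, m, hi⟩ := ha.hom I hI (x, true) hx f (hb I hI (x, true) hx ▸ hf)
  obtain ⟨H', hH', m', -⟩ := ha.hom I hI (x, true) hx f' (hb I hI (x, true) hx ▸ hf')
  have hI' : (I.erase a).erase b ⊆ I := (Finset.erase_subset _ _).trans (Finset.erase_subset _ _)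
  have hJ : ({a, b, c} : Finset α) ⊆ I := by
    simp only [Finset.insert_subset_iff, Finset.singleton_subset_iff]
    exact ⟨ia, ib, ic⟩
  filter_upwards [RPD0.key hs ha hb hc hI hI' hJ (z := a) (y := b) (c := c) (by simp) (by simp)
      (by simp) (by simp) ab.symm ac.symm bc hf hf' e hH m hi hH' m',
    RPD0.key hs ha hb hc hI hI' hJ (z := b) (y := a) (c := c) (by simp) (by simp)
      (by simp) (by simp) ab bc.symm ac hf hf' e hH m hi hH' m'] with v h1 h2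
  obtain ⟨n, hn, p, q⟩ := h1
  obtain ⟨n', hn', p', q'⟩ := h2
  exact (mul_inv_eq_one.1 (Q2T4A.eq_one_of_comm
    (not_commute_map m hi p p' (not_commute_pow ab hn hn')) q q')).symm

end Pool.Agent.MP_3ce0a0_al.Q2T13
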