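import Pool.Agent.MP_3ce0a0_al.Q2T13.Asm
import Pool.Agent.MP_3ce0a0_al.Q2T14.Final

/-! From free twist groups to the divisibility of the ranks. -/

set_option autoImplicit false

namespace Pool.Agent.MP_3ce0a0_al.Q2T13

open H79

theorem sec5 {α β : Type} [Finite α] [Finite β] (ρ : Out (FreeGroup α) →* Out (FreeGroup β))
    (hρ : Function.Injective ρ) (hα : 11 ≤ Nat.card α)
    (h : ∀ L : Finset α, L.card = 4 → Nonempty (FT ρ L)) : Nat.card α - 1 ∣ Nat.card β - 1 := by
  have := Fintype.ofFinite α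
  exact Q2T14.of_ports ρ (by omega) (ports ρ ⟨hρ, by rwa [← Nat.card_eq_fintype_card], h⟩)

end Pool.Agent.MP_3ce0a0_al.Q2T13
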